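import Mathlib

/-! The space `c_0(Γ)`: finitely supported elements, and a monotone family of finitely supported
multipliers which are almost contractive for a given equivalent norm. -/

open scoped ZeroAtInfty
open Set Filter Topology

namespace Pool.Agent.Helper94.CZ

set_option linter.unusedSectionVars false

variable {Γ : Type*} [TopologicalSpace Γ] [DiscreteTopology Γ]

/-- The finitely supported element of `c_0(Γ)` which equals `a` on `S` and `0` off `S`. -/
noncomputable def fs (S : Finset Γ) (a : Γ → ℝ) : C₀(Γ, ℝ) where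
  toFun := (S : Set Γ).indicator a
  continuous_toFun := continuous_of_discreteTopology
  zero_at_infty' := by
    rw [cocompact_eq_cofinite]
    refine tendsto_nhds_of_eventually_eq ?_
    have : ((S : Set Γ)ᶜ) ∈ (cofinite : Filter Γ) := S.finite_toSet.compl_mem_cofinite
    filter_upwards [this] with γ hγ
    exact indicator_of_notMem hγ _

theorem fs_apply (S : Finset Γ) (a : Γ → ℝ) (γ : Γ) : fs S a γ = (S : Set Γ).indicator a γ := rfl

theorem fs_mem {S : Finset Γ} {γ : Γ} (h : γ ∈ S) (a : Γ → ℝ) : fs S a γ = a γ := by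
  rw [fs_apply, indicator_of_mem (by exact_mod_cast h)]

theorem fs_notMem {S : Finset Γ} {γ : Γ} (h : γ ∉ S) (a : Γ → ℝ) : fs S a γ = 0 := by
  rw [fs_apply, indicator_of_notMem (by exact_mod_cast h)]

theorem norm_le_of (x : C₀(Γ, ℝ)) {r : ℝ} (hr : 0 ≤ r) (h : ∀ γ, |x γ| ≤ r) : ‖x‖ ≤ r := by
  rw [← ZeroAtInftyContinuousMap.norm_toBCF_eq_norm]
  exact (BoundedContinuousFunction.norm_le hr).2 fun γ => by
    simpa using h γ

theorem abs_le_norm (x : C₀(Γ, ℝ)) (γ : Γ) : |x γ| ≤ ‖x‖ := by
  rw [← ZeroAtInftyContinuousMap.norm_toBCF_eq_norm]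
  simpa using x.toBCF.norm_coe_le_norm γ

theorem finite_lt (x : C₀(Γ, ℝ)) {t : ℝ} (ht : 0 < t) : {γ | t < |x γ|}.Finite := by
  have h := x.zero_at_infty'
  rw [cocompact_eq_cofinite] at h
  have h2 := (Metric.tendsto_nhds.1 h) t ht
  rw [Filter.eventually_cofinite] at h2
  refine h2.subset fun γ hγ => ?_
  simp only [mem_ofPred_eq, dist_zero_right, not_lt, Real.norm_eq_abs] at *
  exact hγ.le

/-- Tails of an element of `c_0(Γ)` are small. -/
theorem exists_tail (x : C₀(Γ, ℝ)) {ε : ℝ} (hε : 0 < ε) :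
    ∃ B : Finset Γ, ∀ B' : Finset Γ, B ⊆ B' → ‖x - fs B' x‖ ≤ ε := by
  refine ⟨(finite_lt x hε).toFinset, fun B' hB => norm_le_of _ hε.le fun γ => ?_⟩
  by_cases h : γ ∈ B'
  · simp [fs_mem h, hε.le]
  · rw [ZeroAtInftyContinuousMap.sub_apply, fs_notMem h, sub_zero]
    by_contra hc
    exact h (hB (by simpa using hc))

variable {p : Seminorm ℝ C₀(Γ, ℝ)} {M : ℝ}

/-- First step: room for a correction. -/
theorem lemA (hM : 0 < M) (hp : ∀ x, p x ≤ M * ‖x‖) (hq : ∀ x, ‖x‖ ≤ M * p x) (B : Finset Γ)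
    {ε : ℝ} (hε : 0 < ε) :
    ∃ B' : Finset Γ, B ⊆ B' ∧ ∀ x : C₀(Γ, ℝ), ∃ u : C₀(Γ, ℝ),
      (∀ γ, γ ∉ B' → u γ = 0) ∧ (∀ γ ∈ B, u γ = 0) ∧ p (fs B x + u) ≤ (1 + ε) * p x := by
  classical
  set η : ℝ := ε / (2 * M) with hη
  have hη0 : 0 < η := by positivity
  let r : C₀(Γ, ℝ) → (B → ℝ) := fun x b => x b
  set T : Set C₀(Γ, ℝ) := {x | p x ≤ 1} with hT
  have hbdd : TotallyBounded (r '' T) := by
    have : r '' T ⊆ Metric.closedBall 0 M := by
      rintro _ ⟨x, hx, rfl⟩
      rw [mem_closedBall_zero_iff, pi_norm_le_iff_of_nonneg hM.le]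
      intro b
      calc ‖r x b‖ = |x b| := rfl
        _ ≤ ‖x‖ := abs_le_norm x b
        _ ≤ M * p x := hq x
        _ ≤ M * 1 := by gcongr; exact hx
        _ = M := mul_one M
    exact ((isCompact_closedBall (0 : B → ℝ) M).totallyBounded).subset this
  obtain ⟨t, ht, htf, hcov⟩ := hbdd.exists_subset (Metric.dist_mem_uniformity hη0)
  have ht2 : ∀ y, y ∈ t → ∃ x : C₀(Γ, ℝ), x ∈ T ∧ r x = y := fun y hy => ht hy
  choose! g hg using ht2
  choose! tl htl using fun x : C₀(Γ, ℝ) => exists_tail x hη0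
  refine ⟨B ∪ htf.toFinset.biUnion fun y => tl (g y), Finset.subset_union_left, fun x => ?_⟩
  by_cases hx0 : p x = 0
  · refine ⟨0, by simp, by simp, ?_⟩
    have h1 : ‖x‖ ≤ 0 := by have := hq x; rw [hx0, mul_zero] at this; exact this
    have h2 : x = 0 := norm_le_zero_iff.1 h1
    have h3 : fs B x + 0 = 0 := by
      ext γ
      by_cases h : γ ∈ B <;> simp [fs_mem, fs_notMem, h, h2]
    rw [h3, map_zero, hx0, mul_zero]
  · have hxpos : 0 < p x := lt_of_le_of_ne (apply_nonneg p x) (Ne.symm hx0)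
    set c : ℝ := (p x)⁻¹ with hc
    have hcpos : 0 < c := inv_pos.2 hxpos
    have hcx : c • x ∈ T := by
      simp only [hT, mem_ofPred_eq, map_smul_eq_mul, Real.norm_eq_abs, abs_of_pos hcpos]
      rw [hc, inv_mul_cancel₀ hx0]
    obtain ⟨y, hy, hxy⟩ := mem_iUnion₂.1 (hcov ⟨c • x, hcx, rfl⟩)
    have hgy : p (g y) ≤ 1 := (hg y hy).1
    have hry : r (g y) = y := (hg y hy).2
    set B' : Finset Γ := B ∪ htf.toFinset.biUnion fun y => tl (g y) with hB'
    have hsub : tl (g y) ⊆ B' := by
      intro γ hγ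
      rw [hB', Finset.mem_union]
      exact Or.inr (Finset.mem_biUnion.2 ⟨y, htf.mem_toFinset.2 hy, hγ⟩)
    have hsubB : B ⊆ B' := Finset.subset_union_left
    refine ⟨p x • fs (B' \ B) (g y), ?_, ?_, ?_⟩
    · intro γ hγ
      rw [ZeroAtInftyContinuousMap.smul_apply, fs_notMem (fun h => hγ (Finset.mem_sdiff.1 h).1),
        smul_zero]
    · intro γ hγ
      rw [ZeroAtInftyContinuousMap.smul_apply, fs_notMem (fun h => (Finset.mem_sdiff.1 h).2 hγ),
        smul_zero]
    · have hdec : fs B x + p x • fs (B' \ B) (g y) =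
          p x • (fs B (c • x - g y) + (fs B' (g y) - g y) + g y) := by
        ext γ
        have hpc : p x * c = 1 := mul_inv_cancel₀ hx0
        by_cases h : γ ∈ B
        · have h' : γ ∈ B' := hsubB h
          have h'' : γ ∉ B' \ B := fun hh => (Finset.mem_sdiff.1 hh).2 h
          simp only [ZeroAtInftyContinuousMap.add_apply, ZeroAtInftyContinuousMap.smul_apply,
            ZeroAtInftyContinuousMap.sub_apply, fs_mem h, fs_mem h', fs_notMem h'', smul_eq_mul,
            Pi.sub_apply, Pi.smul_apply]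
          linear_combination (-(x γ)) * hpc
        · by_cases h' : γ ∈ B'
          · have h'' : γ ∈ B' \ B := Finset.mem_sdiff.2 ⟨h', h⟩
            simp only [ZeroAtInftyContinuousMap.add_apply, ZeroAtInftyContinuousMap.smul_apply,
              ZeroAtInftyContinuousMap.sub_apply, fs_notMem h, fs_mem h', fs_mem h'', smul_eq_mul]
            ring
          · have h'' : γ ∉ B' \ B := fun hh => h' (Finset.mem_sdiff.1 hh).1
            simp only [ZeroAtInftyContinuousMap.add_apply, ZeroAtInftyContinuousMap.smul_apply,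
              ZeroAtInftyContinuousMap.sub_apply, fs_notMem h, fs_notMem h', fs_notMem h'',
              smul_eq_mul]
            ring
      rw [hdec, map_smul_eq_mul, Real.norm_eq_abs, abs_of_pos hxpos, mul_comm]
      refine mul_le_mul_of_nonneg_right ?_ hxpos.le
      have h1 : p (fs B (c • x - g y)) ≤ M * η := by
        refine (hp _).trans (mul_le_mul_of_nonneg_left ?_ hM.le)
        refine norm_le_of _ hη0.le fun γ => ?_
        by_cases h : γ ∈ B
        · rw [fs_mem h]
          have h2 : dist (r (c • x) ⟨γ, h⟩) (r (g y) ⟨γ, h⟩) ≤ dist (r (c • x)) (r (g y)) :=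
            dist_le_pi_dist _ _ _
          rw [hry] at h2
          have h3 : dist (r (c • x)) y < η := hxy
          have h4 : |(c • ⇑x - ⇑(g y)) γ| = dist (r (c • x) ⟨γ, h⟩) (r (g y) ⟨γ, h⟩) := by
            rw [Real.dist_eq]; rfl
          rw [h4, hry]
          exact (h2.trans_lt h3).le
        · rw [fs_notMem h, abs_zero]; exact hη0.le
      have h2 : p (fs B' (g y) - g y) ≤ M * η := by
        refine (hp _).trans (mul_le_mul_of_nonneg_left ?_ hM.le)
        rw [norm_sub_rev]
        exact htl (g y) B' hsub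
      have h3 : M * η = ε / 2 := by rw [hη]; field_simp
      calc p (fs B (c • x - g y) + (fs B' (g y) - g y) + g y)
          ≤ p (fs B (c • x - g y) + (fs B' (g y) - g y)) + p (g y) := map_add_le_add p _ _
        _ ≤ (p (fs B (c • x - g y)) + p (fs B' (g y) - g y)) + p (g y) := by
            gcongr; exact map_add_le_add p _ _
        _ ≤ (M * η + M * η) + 1 := by gcongr
        _ = 1 + ε := by rw [h3]; ring

end Pool.Agent.Helper94.CZ
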