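import Mathlib

/-! Averages of a continuous function over a small product bump are smooth. -/

open Set Filter Topology MeasureTheory
open scoped ContDiff

namespace Pool.Agent.Helper94.CZ

/-- A bump function on the line supported in `(-η, η)`. -/
noncomputable def bump1 (η : ℝ) (hη : 0 < η) : ContDiffBump (0 : ℝ) :=
  ⟨η / 2, η, by positivity, by linarith⟩

/-- Its normalisation. -/
noncomputable def rho (η : ℝ) (hη : 0 < η) : ℝ → ℝ := (bump1 η hη).normed volume

variable {η : ℝ} (hη : 0 < η)

theorem rho_nonneg (x : ℝ) : 0 ≤ rho η hη x := (bump1 η hη).nonneg_normed x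

theorem rho_contDiff : ContDiff ℝ ∞ (rho η hη) := (bump1 η hη).contDiff_normed

theorem rho_continuous : Continuous (rho η hη) := (bump1 η hη).continuous_normed

theorem rho_integral : ∫ x, rho η hη x = 1 := (bump1 η hη).integral_normed

theorem rho_integrable : Integrable (rho η hη) := (bump1 η hη).integrable_normed

theorem rho_neg (x : ℝ) : rho η hη (-x) = rho η hη x := (bump1 η hη).normed_neg x

theorem rho_eq_zero {x : ℝ} (h : η ≤ |x|) : rho η hη x = 0 := by
  have : x ∉ Function.support (rho η hη) := by
    rw [rho, (bump1 η hη).support_normed_eq]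
    simp only [Metric.mem_ball, dist_zero_right, Real.norm_eq_abs, not_lt]
    exact h
  simpa using this

/-- The one-dimensional law. -/
noncomputable def law (η : ℝ) (hη : 0 < η) : Measure ℝ :=
  volume.withDensity fun x => ENNReal.ofReal (rho η hη x)

instance law_prob : IsProbabilityMeasure (law η hη) := by
  constructor
  rw [law, withDensity_apply _ MeasurableSet.univ, Measure.restrict_univ,
    ← ofReal_integral_eq_lintegral_ofReal (rho_integrable hη) (ae_of_all _ (rho_nonneg hη)),
    rho_integral hη, ENNReal.ofReal_one]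

theorem law_ae : ∀ᵐ x ∂(law η hη), |x| ≤ η := by
  rw [law, ae_withDensity_iff ((rho_continuous hη).measurable.ennreal_ofReal)]
  refine ae_of_all _ fun x hx => ?_
  by_contra h
  push Not at h
  exact hx (by rw [rho_eq_zero hη h.le, ENNReal.ofReal_zero])

variable {ι : Type*} [Fintype ι]

/-- The density of the product law. -/
theorem pi_law : Measure.pi (fun _ : ι => law η hη) =
    (volume : Measure (ι → ℝ)).withDensity fun z => ENNReal.ofReal (∏ i, rho η hη (z i)) := by
  classical
  refine Measure.pi_eq fun s hs => ?_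
  rw [withDensity_apply _ (MeasurableSet.univ_pi hs)]
  have hint : ∀ i, Integrable ((s i).indicator (rho η hη)) := fun i =>
    (rho_integrable hη).indicator (hs i)
  have h1 : ∫⁻ z in univ.pi s, ENNReal.ofReal (∏ i, rho η hη (z i)) =
      ∫⁻ z : ι → ℝ, ENNReal.ofReal (∏ i, (s i).indicator (rho η hη) (z i)) := by
    rw [← lintegral_indicator (MeasurableSet.univ_pi hs)]
    refine lintegral_congr fun z => ?_
    by_cases hz : z ∈ univ.pi s
    · rw [indicator_of_mem hz]
      congr 1
      refine Finset.prod_congr rfl fun i _ => ?_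
      rw [indicator_of_mem (hz i (mem_univ i))]
    · rw [indicator_of_notMem hz]
      have : ∃ i, z i ∉ s i := by
        by_contra hcon
        push Not at hcon
        exact hz fun i _ => hcon i
      obtain ⟨i, hi⟩ := this
      rw [Finset.prod_eq_zero (Finset.mem_univ i) (indicator_of_notMem hi _), ENNReal.ofReal_zero]
  have hnn : ∀ i x, 0 ≤ (s i).indicator (rho η hη) x := fun i x =>
    indicator_nonneg (fun y _ => rho_nonneg hη y) x
  have hintp : Integrable (fun z : ι → ℝ => ∏ i, (s i).indicator (rho η hη) (z i)) :=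
    Integrable.fintype_prod (f := fun i => (s i).indicator (rho η hη)) hint
  rw [h1, ← ofReal_integral_eq_lintegral_ofReal hintp
    (ae_of_all _ fun z => Finset.prod_nonneg fun i _ => hnn i _)]
  have h2 : ∫ z : ι → ℝ, ∏ i, (s i).indicator (rho η hη) (z i) =
      ∏ i, ∫ x, (s i).indicator (rho η hη) x :=
    integral_fintype_prod_volume_eq_prod (f := fun i => (s i).indicator (rho η hη))
  rw [h2, ENNReal.ofReal_prod_of_nonneg fun i _ => integral_nonneg (hnn i)]
  refine Finset.prod_congr rfl fun i _ => ?_
  rw [ofReal_integral_eq_lintegral_ofReal (hint i) (ae_of_all _ (hnn i)), law,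
    withDensity_apply _ (hs i), ← lintegral_indicator (hs i)]
  refine lintegral_congr fun x => ?_
  by_cases hx : x ∈ s i
  · rw [indicator_of_mem hx, indicator_of_mem hx]
  · rw [indicator_of_notMem hx, indicator_of_notMem hx, ENNReal.ofReal_zero]

theorem pi_law_ae : ∀ᵐ z ∂(Measure.pi fun _ : ι => law η hη), ∀ i, |z i| ≤ η := by
  rw [ae_all_iff]
  intro i
  exact (measurePreserving_eval (fun _ : ι => law η hη) i).quasiMeasurePreserving.ae
    (law_ae hη)

/-- The average over the product law of a continuous function is smooth. -/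
theorem contDiff_average {g : (ι → ℝ) → ℝ} (hg : Continuous g) :
    ContDiff ℝ ∞ fun a => ∫ z, g (a + z) ∂(Measure.pi fun _ : ι => law η hη) := by
  set Φ : (ι → ℝ) → ℝ := fun z => ∏ i, rho η hη (z i) with hΦ
  have hΦc : ContDiff ℝ ∞ Φ := by
    refine contDiff_prod fun i _ => ?_
    exact (rho_contDiff hη).comp (contDiff_apply ℝ ℝ i)
  have hΦs : HasCompactSupport Φ := by
    refine HasCompactSupport.of_support_subset_isCompact (isCompact_closedBall (0 : ι → ℝ) η) ?_
    intro z hz
    rw [mem_closedBall_zero_iff, pi_norm_le_iff_of_nonneg hη.le]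
    intro i
    by_contra h
    push Not at h
    exact hz (Finset.prod_eq_zero (Finset.mem_univ i) (rho_eq_zero hη h.le))
  have hΦn : ∀ z, Φ (-z) = Φ z := fun z => Finset.prod_congr rfl fun i _ => rho_neg hη _
  have hΦ0 : ∀ z, 0 ≤ Φ z := fun z => Finset.prod_nonneg fun i _ => rho_nonneg hη _
  have key : (fun a => ∫ z, g (a + z) ∂(Measure.pi fun _ : ι => law η hη)) =
      convolution Φ g (ContinuousLinearMap.lsmul ℝ ℝ) volume := by
    funext a
    rw [pi_law, integral_withDensity_eq_integral_toReal_smul
      (hΦc.continuous.measurable.ennreal_ofReal) (ae_of_all _ fun z => ENNReal.ofReal_lt_top)]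
    rw [convolution_def, ← integral_neg_eq_self]
    refine integral_congr_ae (ae_of_all _ fun z => ?_)
    simp only [ContinuousLinearMap.lsmul_apply]
    rw [ENNReal.toReal_ofReal (hΦ0 _), hΦn, sub_eq_add_neg]
  rw [key]
  exact hΦs.contDiff_convolution_left _ hΦc hg.locallyIntegrable

end Pool.Agent.Helper94.CZ
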