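import Pool.Agent.Helper94.CZ.Mult

/-! The averaged map `F` and its Lipschitz estimate. -/

open scoped ZeroAtInfty
open Set Filter Topology MeasureTheory

namespace Pool.Agent.Helper94.CZ

set_option linter.unusedSectionVars false

variable {Γ : Type*} [TopologicalSpace Γ] [DiscreteTopology Γ]
variable {p : Seminorm ℝ C₀(Γ, ℝ)} {M ε : ℝ}

/-- The finite set of coordinates of absolute value larger than `t`. -/
noncomputable def big (t : ℝ) (x : C₀(Γ, ℝ)) : Finset Γ := by
  classical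
  exact if h : {γ | t < |x γ|}.Finite then h.toFinset else ∅

theorem mem_big {t : ℝ} (ht : 0 < t) {x : C₀(Γ, ℝ)} {γ : Γ} :
    γ ∈ big t x ↔ t < |x γ| := by
  have h := finite_lt x ht
  unfold big
  rw [dif_pos h]
  simp

theorem big_mono {t t' : ℝ} (ht : 0 < t) (h : t ≤ t') (x : C₀(Γ, ℝ)) : big t' x ⊆ big t x :=
  fun γ hγ => (mem_big ht).2 (lt_of_le_of_lt h ((mem_big (ht.trans_le h)).1 hγ))

theorem big_close {t τ : ℝ} (ht : 0 < t) {x y : C₀(Γ, ℝ)} (h : ‖x - y‖ ≤ τ) :
    big (t + τ) x ⊆ big t y := by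
  have hτ : 0 ≤ τ := (norm_nonneg _).trans h
  intro γ hγ
  have h1 := (mem_big (by linarith)).1 hγ
  have h2 := (abs_le_norm (x - y) γ).trans h
  rw [ZeroAtInftyContinuousMap.sub_apply] at h2
  have h3 : |x γ| ≤ |x γ - y γ| + |y γ| := by
    have := abs_add_le (x γ - y γ) (y γ); simpa using this
  exact (mem_big ht).2 (by linarith)

/-- The inclusion profile of the coordinate `β` at the point `x`, in logarithmic scale. -/
noncomputable def prof (D : MultFamily p ε) (δ : ℝ) (x : C₀(Γ, ℝ)) (β : Γ) (u : ℝ) : ℝ :=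
  D.val (big (δ * Real.exp u) x) β

variable {D : MultFamily p ε} {δ L : ℝ}

theorem prof_nonneg (x : C₀(Γ, ℝ)) (β : Γ) (u : ℝ) : 0 ≤ prof D δ x β u := D.nonneg _ _

theorem prof_le_one (x : C₀(Γ, ℝ)) (β : Γ) (u : ℝ) : prof D δ x β u ≤ 1 := D.le_one _ _

theorem prof_antitone (hδ : 0 < δ) (x : C₀(Γ, ℝ)) (β : Γ) : Antitone (prof D δ x β) :=
  fun u v huv => D.mono _ _ (big_mono (by positivity) (by gcongr) x) β

theorem prof_integrable (hδ : 0 < δ) (x : C₀(Γ, ℝ)) (β : Γ) (a b : ℝ) :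
    IntervalIntegrable (prof D δ x β) volume a b := (prof_antitone hδ x β).intervalIntegrable

theorem prof_eq_one (hδ : 0 < δ) {x : C₀(Γ, ℝ)} {β : Γ} {u : ℝ} (h : δ * Real.exp u < |x β|) :
    prof D δ x β u = 1 := D.one _ _ ((mem_big (by positivity)).2 h)

theorem prof_eq_zero (hδ : 0 < δ) {x : C₀(Γ, ℝ)} {β : Γ} {u : ℝ} (hu : 0 ≤ u)
    (h : β ∉ D.supp (big δ x)) : prof D δ x β u = 0 := by
  refine D.zero _ _ fun h' => h (D.mono_supp _ _ (big_mono hδ ?_ x) h')
  have := Real.one_le_exp hu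
  nlinarith

/-- The weight of the coordinate `β` at the point `x`. -/
noncomputable def wt (D : MultFamily p ε) (δ L : ℝ) (x : C₀(Γ, ℝ)) (β : Γ) : ℝ :=
  L⁻¹ * ∫ u in (0 : ℝ)..L, prof D δ x β u

theorem wt_nonneg (hL : 0 < L) (x : C₀(Γ, ℝ)) (β : Γ) : 0 ≤ wt D δ L x β :=
  mul_nonneg (inv_nonneg.2 hL.le) (intervalIntegral.integral_nonneg hL.le fun u _ => prof_nonneg x β u)

theorem wt_le_one (hδ : 0 < δ) (hL : 0 < L) (x : C₀(Γ, ℝ)) (β : Γ) : wt D δ L x β ≤ 1 := by
  have h : ∫ u in (0 : ℝ)..L, prof D δ x β u ≤ ∫ _u in (0 : ℝ)..L, (1 : ℝ) :=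
    intervalIntegral.integral_mono_on hL.le (prof_integrable hδ x β 0 L)
      intervalIntegrable_const fun u _ => prof_le_one x β u
  rw [intervalIntegral.integral_const, sub_zero, smul_eq_mul, mul_one] at h
  calc wt D δ L x β ≤ L⁻¹ * L := mul_le_mul_of_nonneg_left h (inv_nonneg.2 hL.le)
    _ = 1 := inv_mul_cancel₀ hL.ne'

theorem wt_eq_zero (hδ : 0 < δ) (hL : 0 < L) {x : C₀(Γ, ℝ)} {β : Γ}
    (h : β ∉ D.supp (big δ x)) : wt D δ L x β = 0 := by
  have : ∫ u in (0 : ℝ)..L, prof D δ x β u = ∫ _u in (0 : ℝ)..L, (0 : ℝ) :=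
    intervalIntegral.integral_congr fun u hu => by
      rw [uIcc_of_le hL.le] at hu
      exact prof_eq_zero hδ hu.1 h
  rw [wt, this]
  simp

/-- The averaged map. -/
noncomputable def F (D : MultFamily p ε) (δ L : ℝ) (x : C₀(Γ, ℝ)) : C₀(Γ, ℝ) :=
  fs (D.supp (big δ x)) fun β => x β * wt D δ L x β

theorem F_apply (hδ : 0 < δ) (hL : 0 < L) (x : C₀(Γ, ℝ)) (β : Γ) :
    F D δ L x β = x β * wt D δ L x β := by
  by_cases h : β ∈ D.supp (big δ x)
  · exact fs_mem h _
  · rw [F, fs_notMem h, wt_eq_zero hδ hL h, mul_zero]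

theorem norm_F_sub_le (hδ : 0 < δ) (hL : 0 < L) (x : C₀(Γ, ℝ)) :
    ‖F D δ L x - x‖ ≤ δ * Real.exp L := by
  refine norm_le_of _ (by positivity) fun β => ?_
  rw [ZeroAtInftyContinuousMap.sub_apply, F_apply hδ hL]
  have h0 := wt_nonneg (D := D) (δ := δ) hL x β
  have h1 := wt_le_one (D := D) hδ hL x β
  by_cases h : δ * Real.exp L < |x β|
  · have : ∫ u in (0 : ℝ)..L, prof D δ x β u = ∫ _u in (0 : ℝ)..L, (1 : ℝ) :=
      intervalIntegral.integral_congr fun u hu => by
        rw [uIcc_of_le hL.le] at hu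
        exact prof_eq_one hδ (lt_of_le_of_lt (by gcongr; exact hu.2) h)
    have h2 : wt D δ L x β = 1 := by
      rw [wt, this, intervalIntegral.integral_const, sub_zero, smul_eq_mul, mul_one]
      exact inv_mul_cancel₀ hL.ne'
    rw [h2]; simp; positivity
  · have h2 : x β * wt D δ L x β - x β = -(x β * (1 - wt D δ L x β)) := by ring
    rw [h2, abs_neg, abs_mul, abs_of_nonneg (by linarith : 0 ≤ 1 - wt D δ L x β)]
    push Not at h
    calc |x β| * (1 - wt D δ L x β) ≤ |x β| * 1 := by gcongr; linarith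
      _ ≤ δ * Real.exp L := by rw [mul_one]; exact h

/-- Shifting an antitone function with values in `[0,1]` by `κ` changes its integral by at most
`κ`. -/
theorem shift_le {g : ℝ → ℝ} (hg : Antitone g) (h0 : ∀ u, 0 ≤ g u) (h1 : ∀ u, g u ≤ 1)
    {κ a b : ℝ} (hκ : 0 ≤ κ) : ∫ u in a..b, g (u - κ) ≤ (∫ u in a..b, g u) + κ := by
  have hi : ∀ c d, IntervalIntegrable g volume c d := fun c d => hg.intervalIntegrable
  rw [intervalIntegral.integral_comp_sub_right]
  have e1 : ∫ u in (a - κ)..(b - κ), g u = (∫ u in (a - κ)..a, g u) + ∫ u in a..(b - κ), g u :=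
    (intervalIntegral.integral_add_adjacent_intervals (hi _ _) (hi _ _)).symm
  have e2 : ∫ u in a..b, g u = (∫ u in a..(b - κ), g u) + ∫ u in (b - κ)..b, g u :=
    (intervalIntegral.integral_add_adjacent_intervals (hi _ _) (hi _ _)).symm
  have e3 : ∫ u in (a - κ)..a, g u ≤ κ := by
    have : ∫ u in (a - κ)..a, g u ≤ ∫ _u in (a - κ)..a, (1 : ℝ) :=
      intervalIntegral.integral_mono_on (by linarith) (hi _ _) intervalIntegrable_const
        fun u _ => h1 u
    rw [intervalIntegral.integral_const, smul_eq_mul, mul_one] at this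
    linarith
  have e4 : 0 ≤ ∫ u in (b - κ)..b, g u :=
    intervalIntegral.integral_nonneg (by linarith) fun u _ => h0 u
  linarith

/-- One half of the comparison of the profiles of two close points. -/
theorem prof_compare (hδ : 0 < δ) (hL : 0 < L) {x y : C₀(Γ, ℝ)} {τ : ℝ} (hxy : ‖x - y‖ ≤ τ)
    (hτ : τ ≤ δ / 2) (β : Γ) :
    ∫ u in (0 : ℝ)..L, prof D δ x β u ≤
      (∫ u in (0 : ℝ)..L, prof D δ y β u) + 2 * τ / max δ (min |x β| |y β|) := by
  set t0 : ℝ := max δ (min |x β| |y β|) with ht0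
  have hτ0 : 0 ≤ τ := (norm_nonneg _).trans hxy
  have ht0δ : δ ≤ t0 := le_max_left _ _
  have ht0p : 0 < t0 := hδ.trans_le ht0δ
  set κ : ℝ := 2 * τ / t0 with hκ
  have hκ0 : 0 ≤ κ := by positivity
  have hκ1 : κ ≤ 1 := by rw [hκ, div_le_one ht0p]; linarith
  set u0 : ℝ := Real.log (t0 / δ) with hu0
  have hu0' : δ * Real.exp u0 = t0 := by
    rw [hu0, Real.exp_log (by positivity)]; field_simp
  have hu00 : 0 ≤ u0 := Real.log_nonneg ((one_le_div hδ).2 ht0δ)
  have hone : ∀ u, 0 ≤ u → u < u0 → δ * Real.exp u < |x β| ∧ δ * Real.exp u < |y β| := by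
    intro u hu huu
    have h1 : δ * Real.exp u < t0 := by
      rw [← hu0']; gcongr
    have h2 : δ ≤ δ * Real.exp u := by
      have := Real.one_le_exp hu; nlinarith
    have h3 : δ * Real.exp u < min |x β| |y β| := by
      rcases lt_max_iff.1 h1 with h | h
      · linarith
      · exact h
    exact lt_min_iff.1 h3
  have hcmp : ∀ u, u0 ≤ u → prof D δ x β u ≤ prof D δ y β (u - κ) := by
    intro u hu
    refine D.mono _ _ ?_ β
    have h1 : 1 - κ / 2 ≥ Real.exp (-κ) := by
      have h2 : κ + 1 ≤ Real.exp κ := Real.add_one_le_exp κ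
      rw [Real.exp_neg, ge_iff_le, inv_le_comm₀ (Real.exp_pos κ) (by linarith)]
      refine le_trans ?_ h2
      rw [inv_le_iff_one_le_mul₀ (by linarith)]
      nlinarith
    have h4 : t0 ≤ δ * Real.exp u := by rw [← hu0']; gcongr
    have h5 : δ * Real.exp (u - κ) ≤ δ * Real.exp u - τ := by
      have h6 : Real.exp (u - κ) = Real.exp u * Real.exp (-κ) := by rw [← Real.exp_add]; rfl
      have h7 : κ * t0 = 2 * τ := by rw [hκ]; field_simp
      have h8 : δ * Real.exp u * Real.exp (-κ) ≤ δ * Real.exp u * (1 - κ / 2) := by gcongr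
      have h9 : t0 * κ ≤ δ * Real.exp u * κ := by gcongr
      rw [h6]
      nlinarith
    have h10 : 0 < δ * Real.exp (u - κ) := by positivity
    calc big (δ * Real.exp u) x ⊆ big ((δ * Real.exp u - τ) + τ) x := by
          rw [sub_add_cancel]
      _ ⊆ big (δ * Real.exp u - τ) y := big_close (lt_of_lt_of_le h10 h5) hxy
      _ ⊆ big (δ * Real.exp (u - κ)) y := big_mono h10 h5 y
  have hix : ∀ c d, IntervalIntegrable (prof D δ x β) volume c d := prof_integrable hδ x β
  have hiy : ∀ c d, IntervalIntegrable (prof D δ y β) volume c d := prof_integrable hδ y β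
  by_cases hcase : u0 ≤ L
  · have e1 : ∫ u in (0 : ℝ)..L, prof D δ x β u =
        (∫ u in (0 : ℝ)..u0, prof D δ x β u) + ∫ u in u0..L, prof D δ x β u :=
      (intervalIntegral.integral_add_adjacent_intervals (hix _ _) (hix _ _)).symm
    have e2 : ∫ u in (0 : ℝ)..L, prof D δ y β u =
        (∫ u in (0 : ℝ)..u0, prof D δ y β u) + ∫ u in u0..L, prof D δ y β u :=
      (intervalIntegral.integral_add_adjacent_intervals (hiy _ _) (hiy _ _)).symm
    have e3 : ∫ u in (0 : ℝ)..u0, prof D δ x β u = ∫ u in (0 : ℝ)..u0, prof D δ y β u :=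
      intervalIntegral.integral_congr_Ioo_of_le hu00 fun u hu => by
        have := hone u hu.1.le hu.2
        rw [prof_eq_one hδ this.1, prof_eq_one hδ this.2]
    have hishift : IntervalIntegrable (fun u => prof D δ y β (u - κ)) volume u0 L := by
      have : Antitone fun u => prof D δ y β (u - κ) := fun a b hab =>
        prof_antitone hδ y β (by linarith)
      exact this.intervalIntegrable
    have e4 : ∫ u in u0..L, prof D δ x β u ≤ ∫ u in u0..L, prof D δ y β (u - κ) :=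
      intervalIntegral.integral_mono_on hcase (hix _ _) hishift fun u hu => hcmp u hu.1
    have e5 := shift_le (prof_antitone (D := D) hδ y β) (prof_nonneg y β) (prof_le_one y β)
      (a := u0) (b := L) hκ0
    linarith
  · push Not at hcase
    have e3 : ∫ u in (0 : ℝ)..L, prof D δ x β u = ∫ u in (0 : ℝ)..L, prof D δ y β u :=
      intervalIntegral.integral_congr_Ioo_of_le hL.le fun u hu => by
        have := hone u hu.1.le (hu.2.trans hcase)
        rw [prof_eq_one hδ this.1, prof_eq_one hδ this.2]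
    linarith

/-- The jump term is small in the sup norm. -/
theorem jump_le (hδ : 0 < δ) (hL : 0 < L) {x y : C₀(Γ, ℝ)} (hτ : ‖x - y‖ ≤ δ / 2) (β : Γ) :
    |x β * (wt D δ L x β - wt D δ L y β)| ≤ 3 * ‖x - y‖ / L := by
  set τ : ℝ := ‖x - y‖ with hτd
  have hτ0 : 0 ≤ τ := norm_nonneg _
  set t0 : ℝ := max δ (min |x β| |y β|) with ht0
  have ht0δ : δ ≤ t0 := le_max_left _ _
  have ht0p : 0 < t0 := hδ.trans_le ht0δ
  have h1 := prof_compare (D := D) hδ hL (x := x) (y := y) le_rfl hτ β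
  have h2 := prof_compare (D := D) hδ hL (x := y) (y := x) (τ := τ) (by rw [norm_sub_rev]) hτ β
  rw [min_comm] at h2
  have h3 : |(∫ u in (0 : ℝ)..L, prof D δ x β u) - ∫ u in (0 : ℝ)..L, prof D δ y β u| ≤
      2 * τ / t0 := abs_sub_le_iff.2 ⟨by linarith, by linarith⟩
  have h4 : |x β| ≤ t0 + τ := by
    have h5 : |x β - y β| ≤ τ := by
      have := abs_le_norm (x - y) β
      rwa [ZeroAtInftyContinuousMap.sub_apply] at this
    have h6 : |x β| - |y β| ≤ |x β - y β| := abs_sub_abs_le_abs_sub _ _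
    rcases le_total |x β| |y β| with h | h
    · have : |x β| ≤ t0 := by rw [ht0, min_eq_left h]; exact le_max_right _ _
      linarith
    · have : |y β| ≤ t0 := by rw [ht0, min_eq_right h]; exact le_max_right _ _
      linarith
  have h7 : x β * (wt D δ L x β - wt D δ L y β) =
      L⁻¹ * (x β * ((∫ u in (0 : ℝ)..L, prof D δ x β u) - ∫ u in (0 : ℝ)..L, prof D δ y β u)) := by
    rw [wt, wt]; ring
  rw [h7, abs_mul, abs_mul, abs_of_pos (inv_pos.2 hL)]
  have h8 : |x β| * |(∫ u in (0 : ℝ)..L, prof D δ x β u) - ∫ u in (0 : ℝ)..L, prof D δ y β u| ≤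
      3 * τ := by
    calc _ ≤ (t0 + τ) * (2 * τ / t0) := by gcongr
      _ ≤ (3 / 2 * t0) * (2 * τ / t0) := by gcongr; linarith
      _ = 3 * τ := by field_simp
  calc L⁻¹ * (|x β| * _) ≤ L⁻¹ * (3 * τ) := by gcongr
    _ = 3 * τ / L := by ring

end Pool.Agent.Helper94.CZ
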