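import Pool.Agent.Helper94.CZ.AvgMap

/-! The averaged map is almost nonexpansive for the equivalent norm. -/

open scoped ZeroAtInfty
open Set Filter Topology MeasureTheory

namespace Pool.Agent.Helper94.CZ

set_option linter.unusedSectionVars false

variable {Γ : Type*} [TopologicalSpace Γ] [DiscreteTopology Γ]
variable {p : Seminorm ℝ C₀(Γ, ℝ)} {M ε : ℝ}

/-- A norming functional for a seminorm. -/
theorem exists_norming {E : Type*} [AddCommGroup E] [Module ℝ E] (p : Seminorm ℝ E) (v : E) :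
    ∃ φ : E →ₗ[ℝ] ℝ, φ v = p v ∧ ∀ w, φ w ≤ p w := by
  by_cases hv : v = 0
  · exact ⟨0, by simp [hv], fun w => by simp⟩
  · let f : E →ₗ.[ℝ] ℝ := LinearPMap.mkSpanSingleton v (p v) hv
    obtain ⟨g, hg1, hg2⟩ := exists_extension_of_le_sublinear f p
      (fun c hc x => by rw [map_smul_eq_mul, Real.norm_eq_abs, abs_of_pos hc])
      (fun x y => map_add_le_add p x y) (by
        rintro ⟨x, hx⟩
        obtain ⟨c, rfl⟩ := Submodule.mem_span_singleton.1 hx
        change LinearPMap.mkSpanSingleton v (p v) hv ⟨c • v, hx⟩ ≤ p (c • v)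
        rw [LinearPMap.mkSpanSingleton'_apply, smul_eq_mul]
        change c * p v ≤ p (c • v)
        rw [map_smul_eq_mul, Real.norm_eq_abs]
        exact mul_le_mul_of_nonneg_right (le_abs_self c) (apply_nonneg p v))
    refine ⟨g, ?_, hg2⟩
    have h1 : v ∈ f.domain := Submodule.mem_span_singleton_self v
    have h2 := hg1 ⟨v, h1⟩
    have h3 : f ⟨v, h1⟩ = p v := LinearPMap.mkSpanSingleton'_apply_self _ _ _ _
    rw [← h3, ← h2]

theorem sum_apply {ι : Type*} (t : Finset ι) (v : ι → C₀(Γ, ℝ)) (γ : Γ) :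
    (∑ j ∈ t, v j) γ = ∑ j ∈ t, v j γ := by
  classical
  induction t using Finset.induction_on with
  | empty => simp
  | insert a t ha ih =>
    rw [Finset.sum_insert ha, Finset.sum_insert ha, ZeroAtInftyContinuousMap.add_apply, ih]

theorem fs_eq_sum (S : Finset Γ) (a : Γ → ℝ) : fs S a = ∑ β ∈ S, a β • fs {β} (fun _ => 1) := by
  classical
  ext γ
  rw [sum_apply]
  simp only [ZeroAtInftyContinuousMap.smul_apply, smul_eq_mul]
  by_cases h : γ ∈ S
  · rw [fs_mem h, Finset.sum_eq_single_of_mem γ h, fs_mem (Finset.mem_singleton_self γ), mul_one]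
    intro β _ hβ
    rw [fs_notMem (by simpa using hβ.symm), mul_zero]
  · rw [fs_notMem h, Finset.sum_eq_zero]
    intro β hβ
    rw [fs_notMem (by rintro h'; rw [Finset.mem_singleton] at h'; exact h (h' ▸ hβ)), mul_zero]

variable {D : MultFamily p ε} {δ L : ℝ}

theorem p_weighted_le (hδ : 0 < δ) (hL : 0 < L) (y v : C₀(Γ, ℝ)) (S : Finset Γ)
    (hS : D.supp (big δ y) ⊆ S) :
    p (fs S fun β => v β * wt D δ L y β) ≤ (1 + ε) * p v := by
  obtain ⟨φ, h1, h2⟩ := exists_norming p (fs S fun β => v β * wt D δ L y β)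
  rw [← h1]
  have hint : ∀ β ∈ S, IntervalIntegrable
      (fun u => v β * prof D δ y β u * φ (fs {β} fun _ => 1)) volume 0 L := fun β _ =>
    ((prof_integrable hδ y β 0 L).const_mul (v β)).mul_const _
  have h3 : φ (fs S fun β => v β * wt D δ L y β) =
      L⁻¹ * ∫ u in (0 : ℝ)..L, ∑ β ∈ S, v β * prof D δ y β u * φ (fs {β} fun _ => 1) := by
    rw [intervalIntegral.integral_finsetSum hint, Finset.mul_sum, fs_eq_sum, map_sum]
    refine Finset.sum_congr rfl fun β _ => ?_
    rw [map_smul, smul_eq_mul, intervalIntegral.integral_mul_const,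
      intervalIntegral.integral_const_mul, wt]
    ring
  have h4 : ∀ u ∈ Icc (0 : ℝ) L, ∑ β ∈ S, v β * prof D δ y β u * φ (fs {β} fun _ => 1) ≤
      (1 + ε) * p v := by
    intro u hu
    have h5 : ∑ β ∈ S, v β * prof D δ y β u * φ (fs {β} fun _ => 1) =
        φ (fs (D.supp (big (δ * Real.exp u) y)) fun β => D.val (big (δ * Real.exp u) y) β * v β) := by
      have h6 : fs (D.supp (big (δ * Real.exp u) y))
          (fun β => D.val (big (δ * Real.exp u) y) β * v β) =
          fs S (fun β => v β * prof D δ y β u) := by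
        have hsub : D.supp (big (δ * Real.exp u) y) ⊆ S := by
          refine (D.mono_supp _ _ (big_mono hδ ?_ y)).trans hS
          have := Real.one_le_exp hu.1
          nlinarith
        ext γ
        by_cases h : γ ∈ D.supp (big (δ * Real.exp u) y)
        · rw [fs_mem h, fs_mem (hsub h), mul_comm]; rfl
        · rw [fs_notMem h]
          by_cases h' : γ ∈ S
          · rw [fs_mem h', prof, D.zero _ _ h, mul_zero]
          · rw [fs_notMem h']
      rw [h6, fs_eq_sum, map_sum]
      refine Finset.sum_congr rfl fun β _ => ?_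
      rw [map_smul, smul_eq_mul]
    rw [h5]
    exact (h2 _).trans (D.bound _ v)
  rw [h3]
  have hsumint : IntervalIntegrable
      (fun u => ∑ β ∈ S, v β * prof D δ y β u * φ (fs {β} fun _ => 1)) volume 0 L := by
    have := IntervalIntegrable.sum S hint
    simpa only [Finset.sum_fn] using this
  have h7 : ∫ u in (0 : ℝ)..L, ∑ β ∈ S, v β * prof D δ y β u * φ (fs {β} fun _ => 1) ≤
      ∫ _u in (0 : ℝ)..L, (1 + ε) * p v :=
    intervalIntegral.integral_mono_on hL.le hsumint intervalIntegrable_const h4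
  rw [intervalIntegral.integral_const, sub_zero, smul_eq_mul] at h7
  calc L⁻¹ * _ ≤ L⁻¹ * (L * ((1 + ε) * p v)) := by gcongr
    _ = (1 + ε) * p v := by rw [← mul_assoc, inv_mul_cancel₀ hL.ne', one_mul]

theorem p_F_sub_le (hM : 0 < M) (hp : ∀ x, p x ≤ M * ‖x‖) (hq : ∀ x, ‖x‖ ≤ M * p x)
    (hδ : 0 < δ) (hL : 0 < L) {x y : C₀(Γ, ℝ)} (h : ‖x - y‖ ≤ δ / 2) :
    p (F D δ L x - F D δ L y) ≤ (1 + ε + 3 * M ^ 2 / L) * p (x - y) := by
  classical
  set S : Finset Γ := D.supp (big δ x) ∪ D.supp (big δ y) with hS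
  have hdec : F D δ L x - F D δ L y =
      fs S (fun β => x β * (wt D δ L x β - wt D δ L y β)) +
        fs S (fun β => (x - y) β * wt D δ L y β) := by
    ext β
    rw [ZeroAtInftyContinuousMap.sub_apply, ZeroAtInftyContinuousMap.add_apply, F_apply hδ hL,
      F_apply hδ hL]
    by_cases hβ : β ∈ S
    · rw [fs_mem hβ, fs_mem hβ]
      rw [ZeroAtInftyContinuousMap.sub_apply]
      ring
    · have hx : β ∉ D.supp (big δ x) := fun h' => hβ (Finset.mem_union_left _ h')
      have hy : β ∉ D.supp (big δ y) := fun h' => hβ (Finset.mem_union_right _ h')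
      rw [fs_notMem hβ, fs_notMem hβ, wt_eq_zero hδ hL hx, wt_eq_zero hδ hL hy]
      ring
  rw [hdec]
  have hJ : p (fs S (fun β => x β * (wt D δ L x β - wt D δ L y β))) ≤
      3 * M ^ 2 / L * p (x - y) := by
    have h1 : ‖fs S (fun β => x β * (wt D δ L x β - wt D δ L y β))‖ ≤ 3 * ‖x - y‖ / L := by
      refine norm_le_of _ (by positivity) fun β => ?_
      by_cases hβ : β ∈ S
      · rw [fs_mem hβ]
        exact jump_le hδ hL h β
      · rw [fs_notMem hβ, abs_zero]; positivity
    calc _ ≤ M * ‖fs S (fun β => x β * (wt D δ L x β - wt D δ L y β))‖ := hp _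
      _ ≤ M * (3 * ‖x - y‖ / L) := by gcongr
      _ ≤ M * (3 * (M * p (x - y)) / L) := by gcongr; exact hq _
      _ = 3 * M ^ 2 / L * p (x - y) := by ring
  have hG := p_weighted_le (D := D) hδ hL y (x - y) S
    (Finset.subset_union_right : D.supp (big δ y) ⊆ S)
  calc p (fs S (fun β => x β * (wt D δ L x β - wt D δ L y β)) +
        fs S (fun β => (x - y) β * wt D δ L y β))
      ≤ p (fs S (fun β => x β * (wt D δ L x β - wt D δ L y β))) +
        p (fs S (fun β => (x - y) β * wt D δ L y β)) := map_add_le_add p _ _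
    _ ≤ 3 * M ^ 2 / L * p (x - y) + (1 + ε) * p (x - y) := add_le_add hJ hG
    _ = (1 + ε + 3 * M ^ 2 / L) * p (x - y) := by ring

/-- From local to global Lipschitz estimates. -/
theorem global_lip {h : C₀(Γ, ℝ) → ℝ} {K r : ℝ} (hr : 0 < r)
    (hloc : ∀ x y : C₀(Γ, ℝ), ‖x - y‖ ≤ r → |h x - h y| ≤ K * p (x - y)) (x y : C₀(Γ, ℝ)) :
    |h x - h y| ≤ K * p (x - y) := by
  obtain ⟨n, hn⟩ := exists_nat_gt (‖x - y‖ / r)
  have hn0 : (0 : ℝ) < n := lt_of_le_of_lt (by positivity) hn
  set z : ℕ → C₀(Γ, ℝ) := fun i => y + ((i : ℝ) / n) • (x - y) with hz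
  have hstep : ∀ i, z (i + 1) - z i = ((n : ℝ)⁻¹) • (x - y) := by
    intro i
    simp only [hz, Nat.cast_add, Nat.cast_one]
    ext γ
    simp only [ZeroAtInftyContinuousMap.sub_apply, ZeroAtInftyContinuousMap.add_apply,
      ZeroAtInftyContinuousMap.smul_apply, smul_eq_mul]
    ring
  have h1 : ∀ i, |h (z (i + 1)) - h (z i)| ≤ K * p (x - y) / n := by
    intro i
    have h2 : ‖z (i + 1) - z i‖ ≤ r := by
      rw [hstep, norm_smul, Real.norm_eq_abs, abs_of_pos (inv_pos.2 hn0), inv_mul_le_iff₀ hn0]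
      exact ((div_lt_iff₀ hr).1 hn).le
    refine (hloc _ _ h2).trans_eq ?_
    rw [hstep, map_smul_eq_mul, Real.norm_eq_abs, abs_of_pos (inv_pos.2 hn0)]
    ring
  have h3 : ∀ m : ℕ, |h (z m) - h (z 0)| ≤ m * (K * p (x - y) / n) := by
    intro m
    induction m with
    | zero => simp
    | succ m ih =>
      calc |h (z (m + 1)) - h (z 0)| ≤ |h (z (m + 1)) - h (z m)| + |h (z m) - h (z 0)| :=
            abs_sub_le _ _ _
        _ ≤ K * p (x - y) / n + m * (K * p (x - y) / n) := add_le_add (h1 m) ih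
        _ = ((m + 1 : ℕ) : ℝ) * (K * p (x - y) / n) := by push_cast; ring
  have h4 : z n = x := by
    simp only [hz]
    rw [div_self hn0.ne', one_smul]; abel
  have h5 : z 0 = y := by simp [hz]
  have h6 := h3 n
  rw [h4, h5] at h6
  refine h6.trans_eq ?_
  field_simp

end Pool.Agent.Helper94.CZ
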