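import Pool.Agent.Helper94.CZ.Basic

/-! Finitely supported multipliers of norm at most `1 + ε` for an equivalent norm, chosen
monotonically in the prescribed finite set. -/

open scoped ZeroAtInfty
open Set Filter Topology

namespace Pool.Agent.Helper94.CZ

set_option linter.unusedSectionVars false

variable {Γ : Type*} [TopologicalSpace Γ] [DiscreteTopology Γ]
variable {p : Seminorm ℝ C₀(Γ, ℝ)} {M : ℝ}

/-- An average of `m` nested restrictions is an almost contraction. -/
theorem lemB (hM : 0 < M) (hp : ∀ x, p x ≤ M * ‖x‖) (hq : ∀ x, ‖x‖ ≤ M * p x) (A : Finset Γ)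
    {ε : ℝ} (hε : 0 < ε) :
    ∃ (S : Finset Γ) (s : Γ → ℝ), A ⊆ S ∧ (∀ γ ∈ A, s γ = 1) ∧ (∀ γ, γ ∉ S → s γ = 0) ∧
      (∀ γ, 0 ≤ s γ ∧ s γ ≤ 1) ∧
      ∀ x : C₀(Γ, ℝ), p (fs S (fun γ => s γ * x γ)) ≤ (1 + ε) * p x := by
  classical
  set ε' : ℝ := min (ε / 2) 1 with hε'
  have hε'0 : 0 < ε' := lt_min (by positivity) one_pos
  choose N hN1 hN2 using fun B : Finset Γ => lemA hM hp hq B hε'0
  obtain ⟨m, hm⟩ := exists_nat_gt (4 * M ^ 2 / ε)
  have hm0 : (0 : ℝ) < m := lt_of_le_of_lt (by positivity) hm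
  set Bs : ℕ → Finset Γ := fun j => Nat.rec A (fun _ B => N B) j with hBs
  have hB0 : Bs 0 = A := rfl
  have hBsucc : ∀ j, Bs (j + 1) = N (Bs j) := fun j => rfl
  have hmono : Monotone Bs := monotone_nat_of_le_succ fun j => hN1 (Bs j)
  set s : Γ → ℝ := fun γ => (m : ℝ)⁻¹ * ∑ j ∈ Finset.range m, if γ ∈ Bs j then (1 : ℝ) else 0
    with hs
  refine ⟨Bs m, s, hmono (Nat.zero_le m), ?_, ?_, ?_, ?_⟩
  · intro γ hγ
    have : ∀ j ∈ Finset.range m, (if γ ∈ Bs j then (1 : ℝ) else 0) = 1 := fun j _ =>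
      if_pos (hmono (Nat.zero_le j) hγ)
    simp only [hs, Finset.sum_congr rfl this, Finset.sum_const, Finset.card_range, nsmul_eq_mul,
      mul_one]
    exact inv_mul_cancel₀ hm0.ne'
  · intro γ hγ
    have : ∀ j ∈ Finset.range m, (if γ ∈ Bs j then (1 : ℝ) else 0) = 0 := fun j hj =>
      if_neg fun h => hγ (hmono (Finset.mem_range.1 hj).le h)
    simp only [hs, Finset.sum_congr rfl this, Finset.sum_const_zero, mul_zero]
  · intro γ
    have h1 : 0 ≤ ∑ j ∈ Finset.range m, (if γ ∈ Bs j then (1 : ℝ) else 0) :=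
      Finset.sum_nonneg fun j _ => by split_ifs <;> norm_num
    have h2 : ∑ j ∈ Finset.range m, (if γ ∈ Bs j then (1 : ℝ) else 0) ≤ m := by
      calc ∑ j ∈ Finset.range m, (if γ ∈ Bs j then (1 : ℝ) else 0)
          ≤ ∑ _j ∈ Finset.range m, (1 : ℝ) :=
            Finset.sum_le_sum fun j _ => by split_ifs <;> norm_num
        _ = m := by simp
    constructor
    · exact mul_nonneg (inv_nonneg.2 hm0.le) h1
    · calc (m : ℝ)⁻¹ * ∑ j ∈ Finset.range m, (if γ ∈ Bs j then (1 : ℝ) else 0)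
          ≤ (m : ℝ)⁻¹ * m := mul_le_mul_of_nonneg_left h2 (inv_nonneg.2 hm0.le)
        _ = 1 := inv_mul_cancel₀ hm0.ne'
  · intro x
    choose u hu1 hu2 hu3 using fun j : ℕ => hN2 (Bs j) x
    have hdec : fs (Bs m) (fun γ => s γ * x γ) =
        (m : ℝ)⁻¹ • (∑ j ∈ Finset.range m, (fs (Bs j) x + u j)) -
          (m : ℝ)⁻¹ • ∑ j ∈ Finset.range m, u j := by
      have hsum : ∀ (t : Finset ℕ) (v : ℕ → C₀(Γ, ℝ)) (γ : Γ), (∑ j ∈ t, v j) γ = ∑ j ∈ t, v j γ := by
        intro t v γ
        induction t using Finset.induction_on with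
        | empty => simp
        | insert a t ha ih =>
          rw [Finset.sum_insert ha, Finset.sum_insert ha, ZeroAtInftyContinuousMap.add_apply, ih]
      ext γ
      rw [ZeroAtInftyContinuousMap.sub_apply, ZeroAtInftyContinuousMap.smul_apply,
        ZeroAtInftyContinuousMap.smul_apply, hsum, hsum]
      simp only [ZeroAtInftyContinuousMap.add_apply, Finset.sum_add_distrib, smul_eq_mul]
      have h1 : ∑ j ∈ Finset.range m, (fs (Bs j) x) γ =
          (∑ j ∈ Finset.range m, if γ ∈ Bs j then (1 : ℝ) else 0) * x γ := by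
        rw [Finset.sum_mul]
        refine Finset.sum_congr rfl fun j _ => ?_
        by_cases h : γ ∈ Bs j
        · rw [fs_mem h, if_pos h, one_mul]
        · rw [fs_notMem h, if_neg h, zero_mul]
      rw [h1]
      have h2 : (fs (Bs m) fun γ => s γ * x γ) γ = s γ * x γ := by
        by_cases h : γ ∈ Bs m
        · rw [fs_mem h]
        · rw [fs_notMem h]
          have : ∀ j ∈ Finset.range m, (if γ ∈ Bs j then (1 : ℝ) else 0) = 0 := fun j hj =>
            if_neg fun h' => h (hmono (Finset.mem_range.1 hj).le h')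
          simp only [hs, Finset.sum_congr rfl this, Finset.sum_const_zero, mul_zero, zero_mul]
      rw [h2]
      simp only [hs]
      ring
    have hunorm : ‖∑ j ∈ Finset.range m, u j‖ ≤ M * ((1 + ε') * p x) := by
      have hnn : 0 ≤ M * ((1 + ε') * p x) := by
        have := apply_nonneg p x
        positivity
      refine norm_le_of _ hnn fun γ => ?_
      have hsum : (∑ j ∈ Finset.range m, u j) γ = ∑ j ∈ Finset.range m, u j γ := by
        have : ∀ (t : Finset ℕ), (∑ j ∈ t, u j) γ = ∑ j ∈ t, u j γ := by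
          intro t
          induction t using Finset.induction_on with
          | empty => simp
          | insert a t ha ih =>
            rw [Finset.sum_insert ha, Finset.sum_insert ha, ZeroAtInftyContinuousMap.add_apply, ih]
        exact this _
      rw [hsum]
      by_cases hex : ∃ j ∈ Finset.range m, u j γ ≠ 0
      · obtain ⟨j, hj, hjn⟩ := hex
        have hother : ∀ i ∈ Finset.range m, i ≠ j → u i γ = 0 := by
          intro i _ hij
          by_contra hi
          have hγi : γ ∈ Bs (i + 1) := by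
            by_contra h; exact hi (hu1 i γ h)
          have hγj : γ ∈ Bs (j + 1) := by
            by_contra h; exact hjn (hu1 j γ h)
          rcases lt_or_gt_of_ne hij with h | h
          · exact hjn (hu2 j γ (hmono (Nat.succ_le_of_lt h) hγi))
          · exact hi (hu2 i γ (hmono (Nat.succ_le_of_lt h) hγj))
        rw [Finset.sum_eq_single_of_mem j hj hother]
        have hγB : γ ∉ Bs j := fun h => hjn (hu2 j γ h)
        have h1 : u j γ = (fs (Bs j) x + u j) γ := by
          rw [ZeroAtInftyContinuousMap.add_apply, fs_notMem hγB, zero_add]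
        rw [h1]
        calc |(fs (Bs j) x + u j) γ| ≤ ‖fs (Bs j) x + u j‖ := abs_le_norm _ _
          _ ≤ M * p (fs (Bs j) x + u j) := hq _
          _ ≤ M * ((1 + ε') * p x) := by gcongr; exact hu3 j
      · push Not at hex
        rw [Finset.sum_eq_zero hex, abs_zero]
        exact hnn
    rw [hdec]
    have hminv : |(m : ℝ)⁻¹| = (m : ℝ)⁻¹ := abs_of_pos (inv_pos.2 hm0)
    have hpsum : ∀ (t : Finset ℕ) (v : ℕ → C₀(Γ, ℝ)), p (∑ j ∈ t, v j) ≤ ∑ j ∈ t, p (v j) := by
      intro t v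
      induction t using Finset.induction_on with
      | empty => simp
      | insert a t ha ih =>
        rw [Finset.sum_insert ha, Finset.sum_insert ha]
        exact (map_add_le_add p _ _).trans (by gcongr)
    have hpx := apply_nonneg p x
    have hmM : M ^ 2 * 2 / m ≤ ε / 2 := by
      rw [div_le_iff₀ hm0]
      have := (div_lt_iff₀ hε).1 hm
      nlinarith
    calc p ((m : ℝ)⁻¹ • (∑ j ∈ Finset.range m, (fs (Bs j) x + u j)) -
          (m : ℝ)⁻¹ • ∑ j ∈ Finset.range m, u j)
        ≤ p ((m : ℝ)⁻¹ • (∑ j ∈ Finset.range m, (fs (Bs j) x + u j))) +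
          p ((m : ℝ)⁻¹ • ∑ j ∈ Finset.range m, u j) := map_sub_le_add p _ _
      _ = (m : ℝ)⁻¹ * p (∑ j ∈ Finset.range m, (fs (Bs j) x + u j)) +
          (m : ℝ)⁻¹ * p (∑ j ∈ Finset.range m, u j) := by
          rw [map_smul_eq_mul, map_smul_eq_mul, Real.norm_eq_abs, hminv]
      _ ≤ (m : ℝ)⁻¹ * (∑ _j ∈ Finset.range m, (1 + ε') * p x) +
          (m : ℝ)⁻¹ * (M * (M * ((1 + ε') * p x))) := by
          gcongr
          · exact (hpsum _ _).trans (Finset.sum_le_sum fun j _ => hu3 j)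
          · exact (hp _).trans (by gcongr)
      _ = (1 + ε') * p x + (M ^ 2 * (1 + ε') / m) * p x := by
          rw [Finset.sum_const, Finset.card_range, nsmul_eq_mul]
          field_simp
      _ ≤ (1 + ε / 2) * p x + (M ^ 2 * 2 / m) * p x := by
          have h1 : ε' ≤ ε / 2 := min_le_left _ _
          have h2 : ε' ≤ 1 := min_le_right _ _
          gcongr
          linarith
      _ ≤ (1 + ε / 2) * p x + (ε / 2) * p x := by gcongr
      _ = (1 + ε) * p x := by ring

/-- A monotone family of almost contractive finitely supported multipliers. -/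
structure MultFamily (p : Seminorm ℝ C₀(Γ, ℝ)) (ε : ℝ) where
  supp : Finset Γ → Finset Γ
  val : Finset Γ → Γ → ℝ
  sub : ∀ A, A ⊆ supp A
  one : ∀ A, ∀ γ ∈ A, val A γ = 1
  zero : ∀ A γ, γ ∉ supp A → val A γ = 0
  nonneg : ∀ A γ, 0 ≤ val A γ
  le_one : ∀ A γ, val A γ ≤ 1
  bound : ∀ A (x : C₀(Γ, ℝ)), p (fs (supp A) (fun γ => val A γ * x γ)) ≤ (1 + ε) * p x
  mono_supp : ∀ A B, A ⊆ B → supp A ⊆ supp B
  mono : ∀ A B, A ⊆ B → ∀ γ, val A γ ≤ val B γ

theorem lemC (hM : 0 < M) (hp : ∀ x, p x ≤ M * ‖x‖) (hq : ∀ x, ‖x‖ ≤ M * p x)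
    {ε : ℝ} (hε : 0 < ε) : Nonempty (MultFamily p ε) := by
  classical
  choose S s h1 h2 h3 h4 h5 using fun A : Finset Γ => lemB hM hp hq A hε
  let H : (A : Finset Γ) → ((B : Finset Γ) → B ⊂ A → Finset Γ) → Finset Γ := fun A f =>
    A ∪ A.ssubsets.attach.biUnion fun B => S (f B.1 (Finset.mem_ssubsets.1 B.2))
  let U : Finset Γ → Finset Γ := fun A => Finset.strongInduction H A
  have hU : ∀ A, U A = A ∪ A.ssubsets.attach.biUnion fun B => S (U B.1) := fun A =>
    Finset.strongInduction_eq H A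
  have hsub : ∀ A B, B ⊂ A → S (U B) ⊆ U A := by
    intro A B hBA γ hγ
    rw [hU A, Finset.mem_union]
    exact Or.inr (Finset.mem_biUnion.2 ⟨⟨B, Finset.mem_ssubsets.2 hBA⟩, Finset.mem_attach _ _, hγ⟩)
  have hAU : ∀ A, A ⊆ U A := fun A => by rw [hU A]; exact Finset.subset_union_left
  refine ⟨⟨fun A => S (U A), fun A => s (U A), fun A => (hAU A).trans (h1 _),
    fun A γ hγ => h2 _ γ (hAU A hγ), fun A γ hγ => h3 _ γ hγ, fun A γ => (h4 _ γ).1,
    fun A γ => (h4 _ γ).2, fun A x => h5 _ x, ?_, ?_⟩⟩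
  · intro A B hAB
    rcases eq_or_ssubset_of_subset hAB with h | h
    · rw [h]
    · exact (hsub B A h).trans (h1 _)
  · intro A B hAB γ
    rcases eq_or_ssubset_of_subset hAB with h | h
    · rw [h]
    · by_cases hγ : γ ∈ S (U A)
      · rw [h2 (U B) γ (hsub B A h hγ)]
        exact (h4 _ γ).2
      · rw [h3 (U A) γ hγ]
        exact (h4 _ γ).1

end Pool.Agent.Helper94.CZ
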