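import Pool.Agent.Helper94.CZ.Smooth1

/-! From all constants larger than one to the constant one. -/

open scoped ContDiff
open Set Filter Topology MeasureTheory

set_option linter.unusedSectionVars false
set_option linter.unusedVariables false

namespace Pool.Agent.Helper94.CZ

/-- A piecewise linear step. -/
noncomputable def lstep (η t : ℝ) : ℝ := max 0 (min 1 ((t - 2 * η) / (1 - 4 * η)))

theorem lstep_nonneg (η t : ℝ) : 0 ≤ lstep η t := le_max_left _ _

theorem lstep_le_one (η t : ℝ) : lstep η t ≤ 1 := max_le zero_le_one (min_le_left _ _)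

theorem clamp_lip (s t : ℝ) : |max 0 (min 1 s) - max 0 (min 1 t)| ≤ |s - t| := by
  have h1 : |max 0 (min 1 s) - max 0 (min 1 t)| ≤ |min 1 s - min 1 t| := by
    have := abs_max_sub_max_le_max (0 : ℝ) (min 1 s) 0 (min 1 t)
    simpa using this
  have h2 : |min 1 s - min 1 t| ≤ |s - t| := by
    have := abs_min_sub_min_le_max (1 : ℝ) s 1 t
    simpa using this
  exact h1.trans h2

theorem lstep_lip {η : ℝ} (hη : η < 1 / 4) (s t : ℝ) :
    |lstep η s - lstep η t| ≤ (1 - 4 * η)⁻¹ * |s - t| := by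
  have h4 : 0 < 1 - 4 * η := by linarith
  unfold lstep
  refine (clamp_lip _ _).trans_eq ?_
  rw [← sub_div, abs_div, abs_of_pos h4, sub_sub_sub_cancel_right, div_eq_inv_mul]

theorem continuous_lstep (η : ℝ) : Continuous (lstep η) := by
  unfold lstep
  fun_prop

theorem lstep_eq_zero {η t : ℝ} (hη : η < 1 / 4) (ht : t ≤ 2 * η) : lstep η t = 0 := by
  have h4 : 0 < 1 - 4 * η := by linarith
  unfold lstep
  refine max_eq_left ((min_le_right _ _).trans ?_)
  exact div_nonpos_of_nonpos_of_nonneg (by linarith) h4.le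

theorem lstep_eq_one {η t : ℝ} (hη : η < 1 / 4) (ht : 1 - 2 * η ≤ t) : lstep η t = 1 := by
  have h4 : 0 < 1 - 4 * η := by linarith
  unfold lstep
  rw [min_eq_left, max_eq_right zero_le_one]
  rw [le_div_iff₀ h4]
  linarith

theorem lstep_close {η t : ℝ} (hη0 : 0 < η) (hη : η < 1 / 4) (h1 : -(2 * η) ≤ t)
    (h2 : t ≤ 1 + 2 * η) : |lstep η t - t| ≤ 2 * η := by
  have h4 : 0 < 1 - 4 * η := by linarith
  rcases le_total t (2 * η) with h | h
  · rw [lstep_eq_zero hη h, zero_sub, abs_neg, abs_le]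
    exact ⟨h1, h⟩
  · rcases le_total (1 - 2 * η) t with h' | h'
    · rw [lstep_eq_one hη h', abs_le]
      exact ⟨by linarith, by linarith⟩
    · have h5 : (t - 2 * η) / (1 - 4 * η) ≤ 1 := by rw [div_le_one h4]; linarith
      have h6 : 0 ≤ (t - 2 * η) / (1 - 4 * η) := div_nonneg (by linarith) h4.le
      unfold lstep
      rw [min_eq_right h5, max_eq_right h6]
      have h7 : (t - 2 * η) / (1 - 4 * η) - t = 2 * η * ((2 * t - 1) / (1 - 4 * η)) := by
        have h4' : 1 - 4 * η ≠ 0 := h4.ne'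
        rw [← mul_div_assoc, eq_div_iff h4', sub_mul, div_mul_cancel₀ _ h4']
        ring
      rw [h7, abs_mul, abs_of_pos (by positivity : 0 < 2 * η)]
      have h8 : |(2 * t - 1) / (1 - 4 * η)| ≤ 1 := by
        rw [abs_div, abs_of_pos h4, div_le_one h4, abs_le]
        exact ⟨by linarith, by linarith⟩
      calc 2 * η * |(2 * t - 1) / (1 - 4 * η)| ≤ 2 * η * 1 := by gcongr
        _ = 2 * η := mul_one _

/-- A smooth step. -/
noncomputable def sstep (η : ℝ) (hη : 0 < η) (t : ℝ) : ℝ := ∫ z, lstep η (t + z) ∂(law η hη)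

section
variable {η : ℝ} (hη : 0 < η) (hη4 : η < 1 / 4)
include hη4

theorem lstep_int (t : ℝ) : Integrable (fun z => lstep η (t + z)) (law η hη) := by
  refine Integrable.of_bound ((continuous_lstep η).comp (by fun_prop)).aestronglyMeasurable 1
    (ae_of_all _ fun z => ?_)
  rw [Real.norm_eq_abs, abs_of_nonneg (lstep_nonneg _ _)]
  exact lstep_le_one _ _

theorem sstep_nonneg (t : ℝ) : 0 ≤ sstep η hη t := integral_nonneg fun z => lstep_nonneg _ _

theorem sstep_le_one (t : ℝ) : sstep η hη t ≤ 1 := by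
  have := integral_mono (lstep_int hη hη4 t) (integrable_const (1 : ℝ)) fun z => lstep_le_one _ _
  simpa [sstep] using this

theorem sstep_eq_zero {t : ℝ} (ht : t ≤ η) : sstep η hη t = 0 := by
  have : ∀ᵐ z ∂(law η hη), lstep η (t + z) = 0 := by
    filter_upwards [law_ae hη] with z hz
    refine lstep_eq_zero hη4 ?_
    have := (abs_le.1 hz).2
    linarith
  rw [sstep, integral_congr_ae this, integral_zero]

theorem sstep_eq_one {t : ℝ} (ht : 1 - η ≤ t) : sstep η hη t = 1 := by
  have : ∀ᵐ z ∂(law η hη), lstep η (t + z) = 1 := by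
    filter_upwards [law_ae hη] with z hz
    refine lstep_eq_one hη4 ?_
    have := (abs_le.1 hz).1
    linarith
  rw [sstep, integral_congr_ae this]
  simp

theorem sstep_lip (s t : ℝ) : |sstep η hη s - sstep η hη t| ≤ (1 - 4 * η)⁻¹ * |s - t| := by
  rw [sstep, sstep, ← integral_sub (lstep_int hη hη4 s) (lstep_int hη hη4 t)]
  have h1 := norm_integral_le_of_norm_le_const (μ := law η hη) (C := (1 - 4 * η)⁻¹ * |s - t|)
    (f := fun z => lstep η (s + z) - lstep η (t + z)) (ae_of_all _ fun z => by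
      rw [Real.norm_eq_abs]
      refine (lstep_lip hη4 _ _).trans_eq ?_
      rw [add_sub_add_right_eq_sub])
  rw [Real.norm_eq_abs] at h1
  simpa using h1

theorem sstep_close {t : ℝ} (h1 : -η ≤ t) (h2 : t ≤ 1 + η) : |sstep η hη t - t| ≤ 3 * η := by
  have h0 : t = ∫ _z : ℝ, t ∂(law η hη) := by simp
  have h3 : sstep η hη t - t = ∫ z, (lstep η (t + z) - t) ∂(law η hη) := by
    rw [integral_sub (lstep_int hη hη4 t) (integrable_const _), ← h0]; rfl
  rw [h3]
  have h4 := norm_integral_le_of_norm_le_const (μ := law η hη) (C := 3 * η)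
    (f := fun z => lstep η (t + z) - t) (by
      filter_upwards [law_ae hη] with z hz
      have hz' := abs_le.1 hz
      have h5 := lstep_close hη hη4 (t := t + z) (by linarith) (by linarith)
      rw [Real.norm_eq_abs]
      calc |lstep η (t + z) - t| = |(lstep η (t + z) - (t + z)) + z| := by ring_nf
        _ ≤ |lstep η (t + z) - (t + z)| + |z| := abs_add_le _ _
        _ ≤ 2 * η + η := add_le_add h5 hz
        _ = 3 * η := by ring)
  rw [Real.norm_eq_abs] at h4
  simpa using h4

omit hη4 in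
theorem sstep_contDiff : ContDiff ℝ ∞ (sstep η hη) := by
  have h1 := contDiff_average (ι := Unit) hη (g := fun a => lstep η (a ()))
    ((continuous_lstep η).comp (continuous_apply ()))
  have h2 : sstep η hη = (fun a : Unit → ℝ =>
      ∫ z, lstep η ((a + z) ()) ∂(Measure.pi fun _ : Unit => law η hη)) ∘ fun t _ => t := by
    funext t
    simp only [Function.comp_apply, Pi.add_apply, sstep]
    have h3 := (measurePreserving_eval (fun _ : Unit => law η hη) ())
    have hc : Continuous fun z : ℝ => lstep η (t + z) :=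
      (continuous_lstep η).comp (continuous_const.add continuous_id)
    have h4 : ∫ z, lstep η (t + z) ∂(Measure.map (Function.eval ())
        (Measure.pi fun _ : Unit => law η hη)) =
        ∫ z : Unit → ℝ, lstep η (t + z ()) ∂(Measure.pi fun _ : Unit => law η hη) :=
      integral_map (f := fun z : ℝ => lstep η (t + z)) h3.measurable.aemeasurable
        hc.aestronglyMeasurable
    rw [← h4, h3.map_eq]
  rw [h2]
  exact h1.comp (contDiff_pi.2 fun _ => contDiff_id)

end

variable {X : Type*} [NormedAddCommGroup X] [NormedSpace ℝ X]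

/-- **If a normed space has property `(*^∞)` with every constant larger than one, then it has
property `(*^∞)` with constant one.** -/
theorem star_one_of_star
    (hstar : ∀ C₀ : ℝ, 1 < C₀ → ∀ (f : X → ℝ) (Λ : ℝ), 0 ≤ Λ →
      (∀ x y, |f x - f y| ≤ Λ * ‖x - y‖) → ∀ ϵ : ℝ, 0 < ϵ →
      ∃ K : X → ℝ, ContDiff ℝ ∞ K ∧ (∀ x y, |K x - K y| ≤ C₀ * Λ * ‖x - y‖) ∧
        ∀ x, |f x - K x| < ϵ)
    {f : X → ℝ} {Λ : ℝ} (hΛ : 0 ≤ Λ) (hf : ∀ x y, |f x - f y| ≤ Λ * ‖x - y‖)
    {ϵ : ℝ} (hϵ : 0 < ϵ) :
    ∃ K : X → ℝ, ContDiff ℝ ∞ K ∧ (∀ x y, |K x - K y| ≤ Λ * ‖x - y‖) ∧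
      ∀ x, |f x - K x| < ϵ := by
  -- continuity of `f`
  have hfc : Continuous f := by
    have : LipschitzWith (Real.toNNReal Λ) f := LipschitzWith.of_dist_le_mul fun x y => by
      rw [Real.coe_toNNReal _ hΛ, Real.dist_eq, dist_eq_norm]; exact hf x y
    exact this.continuous
  set a : ℝ := min (ϵ / 8) (1 / 8) with ha
  have ha0 : 0 < a := lt_min (by positivity) (by norm_num)
  have ha1 : a ≤ ϵ / 8 := min_le_left _ _
  have ha2 : a ≤ 1 / 8 := min_le_right _ _
  set B : ℤ → ℝ := fun m => m - a * Real.arctan m with hB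
  set e : ℤ → ℝ := fun m => a * (Real.arctan (m + 1) - Real.arctan m) / 8 with he
  have he0 : ∀ m, 0 < e m := fun m => by
    have : Real.arctan (m : ℝ) < Real.arctan (m + 1) := Real.arctan_strictMono (by linarith)
    have h2 : 0 < Real.arctan ((m : ℝ) + 1) - Real.arctan m := by linarith
    simp only [he]; positivity
  have hpi : Real.pi < 4 := Real.pi_lt_four
  have he1 : ∀ m, e m ≤ a / 2 := fun m => by
    have h1 := Real.arctan_lt_pi_div_two ((m : ℝ) + 1)
    have h2 := Real.neg_pi_div_two_lt_arctan (m : ℝ)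
    have h3 : Real.arctan ((m : ℝ) + 1) - Real.arctan m ≤ 4 := by linarith
    simp only [he]
    nlinarith
  have he4 : ∀ m, e m < 1 / 4 := fun m => by linarith [he1 m]
  have hBs : ∀ m, B (m + 1) = B m + (1 - 8 * e m) := fun m => by
    simp only [hB, he]; push_cast; ring
  have hBm : ∀ m, |B m - m| ≤ 2 * a := fun m => by
    have h1 := Real.arctan_lt_pi_div_two (m : ℝ)
    have h2 := Real.neg_pi_div_two_lt_arctan (m : ℝ)
    have h3 : |Real.arctan (m : ℝ)| ≤ 2 := abs_le.2 ⟨by linarith, by linarith⟩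
    simp only [hB]
    rw [sub_sub_cancel_left, abs_neg, abs_mul, abs_of_pos ha0]
    nlinarith
  -- the pieces
  set φ : ℤ → X → ℝ := fun m x => max 0 (min 1 (f x - m)) with hφ
  have hφl : ∀ m x y, |φ m x - φ m y| ≤ Λ * ‖x - y‖ := by
    intro m x y
    simp only [hφ]
    refine (clamp_lip _ _).trans ?_
    rw [sub_sub_sub_cancel_right]
    exact hf x y
  choose k hk1 hk2 hk3 using fun m : ℤ => hstar (1 + e m) (by linarith [he0 m]) (φ m) Λ hΛ
    (hφl m) (e m) (he0 m)
  set G : ℤ → X → ℝ := fun m x => B m + (1 - 8 * e m) * sstep (e m) (he0 m) (k m x) with hG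
  have hcoef : ∀ m, 0 ≤ 1 - 8 * e m := fun m => by linarith [he1 m]
  have hGc : ∀ m, ContDiff ℝ ∞ (G m) := fun m =>
    contDiff_const.add (contDiff_const.mul ((sstep_contDiff (he0 m)).comp (hk1 m)))
  have hGl : ∀ m x y, |G m x - G m y| ≤ Λ * ‖x - y‖ := by
    intro m x y
    have h1 := sstep_lip (he0 m) (he4 m) (k m x) (k m y)
    have h2 := hk2 m x y
    have h4 : 0 < 1 - 4 * e m := by linarith [he4 m]
    have h0 := he0 m
    have hn : 0 ≤ Λ * ‖x - y‖ := by positivity
    have h5 : G m x - G m y = (1 - 8 * e m) *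
        (sstep (e m) (he0 m) (k m x) - sstep (e m) (he0 m) (k m y)) := by
      simp only [hG]; ring
    rw [h5, abs_mul, abs_of_nonneg (hcoef m)]
    calc (1 - 8 * e m) * |sstep (e m) (he0 m) (k m x) - sstep (e m) (he0 m) (k m y)|
        ≤ (1 - 8 * e m) * ((1 - 4 * e m)⁻¹ * ((1 + e m) * Λ * ‖x - y‖)) := by
          refine mul_le_mul_of_nonneg_left (h1.trans ?_) (hcoef m)
          gcongr
      _ = ((1 - 8 * e m) * (1 + e m) * (1 - 4 * e m)⁻¹) * (Λ * ‖x - y‖) := by ring
      _ ≤ 1 * (Λ * ‖x - y‖) := by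
          refine mul_le_mul_of_nonneg_right ?_ hn
          rw [← div_eq_mul_inv, div_le_one h4]
          nlinarith
      _ = Λ * ‖x - y‖ := one_mul _
  -- near the ends the pieces are constant
  have hlow : ∀ (m : ℤ) x, f x ≤ m → ∀ᶠ y in 𝓝 x, G m y = B m := by
    intro m x hx
    have h1 : φ m x = 0 := by
      simp only [hφ]
      exact max_eq_left ((min_le_right _ _).trans (by linarith))
    have h2 := hk3 m x
    rw [h1, zero_sub, abs_neg, abs_lt] at h2
    filter_upwards [(hk1 m).continuous.continuousAt.eventually_lt continuousAt_const h2.2] with y hy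
    simp only [hG]
    rw [sstep_eq_zero (he0 m) (he4 m) hy.le, mul_zero, add_zero]
  have hhigh : ∀ (m : ℤ) x, (m : ℝ) + 1 ≤ f x → ∀ᶠ y in 𝓝 x, G m y = B (m + 1) := by
    intro m x hx
    have h1 : φ m x = 1 := by
      simp only [hφ]
      rw [min_eq_left (by linarith), max_eq_right zero_le_one]
    have h2 := hk3 m x
    rw [h1, abs_lt] at h2
    have h3 : 1 - e m < k m x := by linarith
    filter_upwards [continuousAt_const.eventually_lt (hk1 m).continuous.continuousAt h3] with y hy
    simp only [hG]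
    rw [sstep_eq_one (he0 m) (he4 m) hy.le, mul_one, hBs]
  -- the glued function
  set K : X → ℝ := fun x => G ⌊f x⌋ x with hK
  have hloc : ∀ x, ∃ m, K =ᶠ[𝓝 x] G m := by
    intro x
    set m : ℤ := ⌊f x⌋ with hm
    have hm1 : (m : ℝ) ≤ f x := Int.floor_le _
    have hm2 : f x < m + 1 := Int.lt_floor_add_one _
    refine ⟨m, ?_⟩
    rcases eq_or_lt_of_le hm1 with h | h
    · -- an integer level
      have h1 := hlow m x h.symm.le
      have h2 := hhigh (m - 1) x (by push_cast; linarith)
      have h3 : ∀ᶠ y in 𝓝 x, f y < m + 1 :=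
        hfc.continuousAt.eventually_lt continuousAt_const hm2
      have h4 : ∀ᶠ y in 𝓝 x, (m : ℝ) - 1 < f y :=
        continuousAt_const.eventually_lt hfc.continuousAt (by linarith)
      filter_upwards [h1, h2, h3, h4] with y hy1 hy2 hy3 hy4
      rw [sub_add_cancel] at hy2
      simp only [hK]
      rcases lt_or_ge (f y) m with h5 | h5
      · have h6 : ⌊f y⌋ = m - 1 := by
          rw [Int.floor_eq_iff]; push_cast; exact ⟨hy4.le, by linarith⟩
        rw [h6, hy2, hy1]
      · have h6 : ⌊f y⌋ = m := by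
          rw [Int.floor_eq_iff]; exact ⟨h5, hy3⟩
        rw [h6]
    · have h3 : ∀ᶠ y in 𝓝 x, f y < m + 1 :=
        hfc.continuousAt.eventually_lt continuousAt_const hm2
      have h4 : ∀ᶠ y in 𝓝 x, (m : ℝ) < f y :=
        continuousAt_const.eventually_lt hfc.continuousAt h
      filter_upwards [h3, h4] with y hy3 hy4
      simp only [hK]
      have h6 : ⌊f y⌋ = m := by
        rw [Int.floor_eq_iff]; exact ⟨hy4.le, hy3⟩
      rw [h6]
  have hKc : ContDiff ℝ ∞ K := by
    rw [contDiff_iff_contDiffAt]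
    intro x
    obtain ⟨m, hm⟩ := hloc x
    exact ((hGc m).contDiffAt).congr_of_eventuallyEq hm
  have hKd : ∀ x, ‖fderiv ℝ K x‖ ≤ Λ := by
    intro x
    obtain ⟨m, hm⟩ := hloc x
    rw [hm.fderiv_eq]
    refine norm_fderiv_le_of_lipschitz ℝ (C := Real.toNNReal Λ) ?_ |>.trans_eq
      (Real.coe_toNNReal _ hΛ)
    exact LipschitzWith.of_dist_le_mul fun x y => by
      rw [Real.coe_toNNReal _ hΛ, Real.dist_eq, dist_eq_norm]; exact hGl m x y
  refine ⟨K, hKc, fun x y => ?_, fun x => ?_⟩
  · have h1 := Convex.norm_image_sub_le_of_norm_fderiv_le (𝕜 := ℝ) (s := univ) (x := y) (y := x)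
      (C := Λ) (f := K) (fun z _ => (hKc.differentiable (by simp)).differentiableAt)
      (fun z _ => hKd z) convex_univ (mem_univ _) (mem_univ _)
    rwa [Real.norm_eq_abs] at h1
  · set m : ℤ := ⌊f x⌋ with hm
    have hm1 : (m : ℝ) ≤ f x := Int.floor_le _
    have hm2 : f x < m + 1 := Int.lt_floor_add_one _
    have h1 : φ m x = f x - m := by
      simp only [hφ]
      rw [min_eq_right (by linarith), max_eq_right (by linarith)]
    have h2 := hk3 m x
    rw [h1] at h2
    have h2' := abs_lt.1 h2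
    have h3 := sstep_close (he0 m) (he4 m) (t := k m x) (by linarith) (by linarith)
    have h4 := hBm m
    have h5 := he1 m
    have h6 := sstep_nonneg (he0 m) (he4 m) (k m x)
    have h7 := sstep_le_one (he0 m) (he4 m) (k m x)
    have h0 := he0 m
    have h8 : K x = B m + (1 - 8 * e m) * sstep (e m) (he0 m) (k m x) := rfl
    rw [h8]
    have h3' := abs_le.1 h3
    have h4' := abs_le.1 h4
    rw [abs_lt]
    constructor
    · nlinarith
    · nlinarith

end Pool.Agent.Helper94.CZ
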