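import Pool.Agent.Helper94.CZ.LipF
import Pool.Agent.Helper94.CZ.Smooth1

/-! Smoothing: the main theorem for a seminorm on `c_0(Γ)` equivalent to the sup norm. -/

open scoped ZeroAtInfty ContDiff
open Set Filter Topology MeasureTheory

namespace Pool.Agent.Helper94.CZ

set_option linter.unusedSectionVars false

variable {Γ : Type*} [TopologicalSpace Γ] [DiscreteTopology Γ]
variable {p : Seminorm ℝ C₀(Γ, ℝ)} {M ε : ℝ} {D : MultFamily p ε} {δ L : ℝ}

/-- The map `F` only sees the coordinates in a finite set, locally. -/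
theorem F_dep (hδ : 0 < δ) (hL : 0 < L) {x y : C₀(Γ, ℝ)} (h : ‖y - x‖ ≤ δ / 2) {S : Finset Γ}
    (hS : D.supp (big (δ / 2) x) ⊆ S) : F D δ L (fs S y) = F D δ L y := by
  have hsub : D.supp (big δ y) ⊆ S := by
    refine Subset.trans ?_ hS
    refine D.mono_supp _ _ ?_
    have := big_close (t := δ / 2) (by positivity) h
    simpa using this
  have hout : ∀ γ, γ ∉ S → |y γ| ≤ δ := by
    intro γ hγ
    by_contra hc
    push Not at hc
    exact hγ (hsub (D.sub _ ((mem_big hδ).2 hc)))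
  have hbig : ∀ t, δ ≤ t → big t (fs S y) = big t y := by
    intro t ht
    have ht0 : 0 < t := hδ.trans_le ht
    ext γ
    rw [mem_big ht0, mem_big ht0]
    by_cases hγ : γ ∈ S
    · rw [fs_mem hγ]
    · rw [fs_notMem hγ, abs_zero]
      exact ⟨fun h' => absurd h' (not_lt.2 ht0.le), fun h' =>
        absurd h' (not_lt.2 ((hout γ hγ).trans ht))⟩
  have hwt : ∀ β, wt D δ L (fs S y) β = wt D δ L y β := by
    intro β
    rw [wt, wt]
    congr 1
    refine intervalIntegral.integral_congr fun u hu => ?_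
    rw [uIcc_of_le hL.le] at hu
    have h1 : δ ≤ δ * Real.exp u := by
      have := Real.one_le_exp hu.1; nlinarith
    change prof D δ (fs S y) β u = prof D δ y β u
    rw [prof, prof, hbig _ h1]
  ext β
  rw [F_apply hδ hL, F_apply hδ hL, hwt]
  by_cases hβ : β ∈ S
  · rw [fs_mem hβ]
  · rw [wt_eq_zero hδ hL fun h' => hβ (hsub h'), mul_zero, mul_zero]

/-- Extension by zero of a vector indexed by a finite set. -/
noncomputable def ext (S : Finset Γ) (a : S → ℝ) : C₀(Γ, ℝ) :=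
  ∑ γ : S, a γ • fs {(γ : Γ)} (fun _ => 1)

theorem continuous_ext (S : Finset Γ) : Continuous (ext (Γ := Γ) S) := by
  unfold ext
  exact continuous_finsetSum _ fun γ _ => (continuous_apply γ).smul continuous_const

theorem fs_eq_ext (S : Finset Γ) (b : Γ → ℝ) : fs S b = ext S (fun γ => b γ) := by
  rw [fs_eq_sum, ext]
  exact (Finset.sum_coe_sort S fun β => b β • fs {β} (fun _ => (1 : ℝ))).symm

/-- Evaluation at a coordinate. -/
noncomputable def evalC (γ : Γ) : C₀(Γ, ℝ) →L[ℝ] ℝ :=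
  LinearMap.mkContinuous
    { toFun := fun x => x γ
      map_add' := fun x y => rfl
      map_smul' := fun c x => rfl } 1 fun x => by
    rw [one_mul]; exact abs_le_norm x γ

/-- Restriction to a finite set of coordinates. -/
noncomputable def restr (S : Finset Γ) : C₀(Γ, ℝ) →L[ℝ] (S → ℝ) :=
  ContinuousLinearMap.pi fun γ => evalC (γ : Γ)

theorem restr_apply (S : Finset Γ) (x : C₀(Γ, ℝ)) (γ : S) : restr S x γ = x γ := rfl

/-- Clipping to `[-η, η]`. -/
def clip (η t : ℝ) : ℝ := max (-η) (min η t)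

theorem abs_clip_le {η : ℝ} (hη : 0 < η) (t : ℝ) : |clip η t| ≤ η := by
  rw [abs_le, clip]
  exact ⟨le_max_left _ _, max_le (by linarith) (min_le_left _ _)⟩

theorem clip_of_abs_le {η t : ℝ} (h : |t| ≤ η) : clip η t = t := by
  rw [abs_le] at h
  rw [clip, min_eq_right h.2, max_eq_right h.1]

theorem continuous_clip (η : ℝ) : Continuous (clip η) := by
  unfold clip
  fun_prop

variable {η : ℝ} {hη : 0 < η}

/-- The infinite product law. -/
noncomputable def nu (Γ : Type*) (η : ℝ) (hη : 0 < η) : Measure (Γ → ℝ) :=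
  Measure.infinitePi fun _ : Γ => law η hη

instance : IsProbabilityMeasure (nu Γ η hη) := by unfold nu; infer_instance

theorem norm_fs_clip_le (hη : 0 < η) (S : Finset Γ) (z : Γ → ℝ) :
    ‖fs S fun γ => clip η (z γ)‖ ≤ η := by
  refine norm_le_of _ hη.le fun γ => ?_
  by_cases h : γ ∈ S
  · rw [fs_mem h]; exact abs_clip_le hη _
  · rw [fs_notMem h, abs_zero]; exact hη.le

/-- The smoothed function. -/
noncomputable def smo (D : MultFamily p ε) (δ L η : ℝ) (hη : 0 < η) (f : C₀(Γ, ℝ) → ℝ)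
    (x : C₀(Γ, ℝ)) : ℝ :=
  ∫ z, f (F D δ L (x + fs (D.supp (big (δ / 2) x)) fun γ => clip η (z γ))) ∂(nu Γ η hη)

section

variable {f : C₀(Γ, ℝ) → ℝ} {K₀ : ℝ}

theorem continuous_of_lip {h : C₀(Γ, ℝ) → ℝ} (hM : 0 < M) (hp : ∀ x, p x ≤ M * ‖x‖) (hK : 0 ≤ K₀)
    (hh : ∀ x y, |h x - h y| ≤ K₀ * p (x - y)) : Continuous h := by
  have : LipschitzWith (Real.toNNReal (K₀ * M)) h := by
    refine LipschitzWith.of_dist_le_mul fun x y => ?_
    rw [Real.coe_toNNReal _ (by positivity), Real.dist_eq, dist_eq_norm]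
    calc |h x - h y| ≤ K₀ * p (x - y) := hh x y
      _ ≤ K₀ * (M * ‖x - y‖) := by gcongr; exact hp _
      _ = K₀ * M * ‖x - y‖ := by ring
  exact this.continuous

theorem measurable_smo {h : C₀(Γ, ℝ) → ℝ} (hh : Continuous h) (x : C₀(Γ, ℝ)) (S : Finset Γ) :
    Measurable fun z : Γ → ℝ => h (x + fs S fun γ => clip η (z γ)) := by
  have h1 : (fun z : Γ → ℝ => h (x + fs S fun γ => clip η (z γ))) =
      (fun a : S → ℝ => h (x + ext S fun γ => clip η (a γ))) ∘ S.restrict := by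
    funext z
    simp only [Function.comp_apply, fs_eq_ext]
    rfl
  rw [h1]
  refine Measurable.comp ?_ (Finset.measurable_restrict (X := fun _ : Γ => ℝ) S)
  refine (hh.comp (continuous_const.add ((continuous_ext S).comp ?_))).measurable
  exact continuous_pi fun γ => (continuous_clip η).comp (continuous_apply γ)

theorem integrable_smo (hM : 0 < M) (hp : ∀ x, p x ≤ M * ‖x‖) (hK : 0 ≤ K₀)
    {h : C₀(Γ, ℝ) → ℝ} (hh : ∀ x y, |h x - h y| ≤ K₀ * p (x - y)) (x : C₀(Γ, ℝ)) (S : Finset Γ) :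
    Integrable (fun z : Γ → ℝ => h (x + fs S fun γ => clip η (z γ))) (nu Γ η hη) := by
  refine Integrable.of_bound
    (measurable_smo (continuous_of_lip hM hp hK hh) x S).aestronglyMeasurable
    (|h x| + K₀ * (M * η)) (ae_of_all _ fun z => ?_)
  rw [Real.norm_eq_abs]
  have h1 : |h (x + fs S fun γ => clip η (z γ)) - h x| ≤ K₀ * (M * η) := by
    refine (hh _ _).trans ?_
    rw [add_sub_cancel_left]
    gcongr
    exact (hp _).trans (by gcongr; exact norm_fs_clip_le hη S z)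
  calc |h (x + fs S fun γ => clip η (z γ))|
      = |h x + (h (x + fs S fun γ => clip η (z γ)) - h x)| := by ring_nf
    _ ≤ |h x| + |h (x + fs S fun γ => clip η (z γ)) - h x| := abs_add_le _ _
    _ ≤ |h x| + K₀ * (M * η) := by gcongr

/-- The smoothed function may be computed with any larger finite set. -/
theorem smo_eq (hδ : 0 < δ) (hL : 0 < L) (hηδ : η ≤ δ / 2) (x : C₀(Γ, ℝ)) {S : Finset Γ}
    (hS : D.supp (big (δ / 2) x) ⊆ S) :
    smo D δ L η hη f x = ∫ z, f (F D δ L (x + fs S fun γ => clip η (z γ))) ∂(nu Γ η hη) := by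
  rw [smo]
  refine integral_congr_ae (ae_of_all _ fun z => ?_)
  have h1 : ∀ T : Finset Γ, ‖(x + fs T fun γ => clip η (z γ)) - x‖ ≤ δ / 2 := fun T => by
    rw [add_sub_cancel_left]
    exact (norm_fs_clip_le hη T z).trans hηδ
  have h2 := F_dep (D := D) hδ hL (h1 (D.supp (big (δ / 2) x))) subset_rfl
  have h3 := F_dep (D := D) hδ hL (h1 S) (subset_rfl : D.supp (big (δ / 2) x) ⊆ _)
  have h4 : fs (D.supp (big (δ / 2) x)) (x + fs (D.supp (big (δ / 2) x)) fun γ => clip η (z γ)) =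
      fs (D.supp (big (δ / 2) x)) (x + fs S fun γ => clip η (z γ)) := by
    ext γ
    by_cases hγ : γ ∈ D.supp (big (δ / 2) x)
    · rw [fs_mem hγ, fs_mem hγ]
      simp only [Pi.add_apply]
      rw [fs_mem hγ, fs_mem (hS hγ)]
    · rw [fs_notMem hγ, fs_notMem hγ]
  change f (F D δ L _) = f (F D δ L _)
  rw [← h2, ← h3]
  congr 2

theorem smo_lip (hM : 0 < M) (hp : ∀ x, p x ≤ M * ‖x‖) (hK : 0 ≤ K₀) (hδ : 0 < δ) (hL : 0 < L)
    (hηδ : η ≤ δ / 2)
    (hh : ∀ x y, |f (F D δ L x) - f (F D δ L y)| ≤ K₀ * p (x - y)) (x y : C₀(Γ, ℝ)) :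
    |smo D δ L η hη f x - smo D δ L η hη f y| ≤ K₀ * p (x - y) := by
  classical
  set S : Finset Γ := D.supp (big (δ / 2) x) ∪ D.supp (big (δ / 2) y)
  rw [smo_eq hδ hL hηδ x (S := S) Finset.subset_union_left,
    smo_eq hδ hL hηδ y (S := S) Finset.subset_union_right,
    ← integral_sub (integrable_smo hM hp hK (h := fun x => f (F D δ L x)) hh x S)
      (integrable_smo hM hp hK (h := fun x => f (F D δ L x)) hh y S)]
  have h1 := norm_integral_le_of_norm_le_const (μ := nu Γ η hη) (C := K₀ * p (x - y))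
    (f := fun z => f (F D δ L (x + fs S fun γ => clip η (z γ))) -
      f (F D δ L (y + fs S fun γ => clip η (z γ))))
    (ae_of_all _ fun z => by
      rw [Real.norm_eq_abs]
      refine (hh _ _).trans_eq ?_
      rw [add_sub_add_right_eq_sub])
  rw [Real.norm_eq_abs] at h1
  simpa using h1

theorem smo_close (hM : 0 < M) (hp : ∀ x, p x ≤ M * ‖x‖) (hK : 0 ≤ K₀)
    (hh : ∀ x y, |f (F D δ L x) - f (F D δ L y)| ≤ K₀ * p (x - y)) (x : C₀(Γ, ℝ)) :
    |smo D δ L η hη f x - f (F D δ L x)| ≤ K₀ * (M * η) := by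
  have h0 : f (F D δ L x) = ∫ _z : Γ → ℝ, f (F D δ L x) ∂(nu Γ η hη) := by simp
  rw [smo, h0, ← integral_sub (integrable_smo hM hp hK (h := fun x => f (F D δ L x)) hh x _)
    (integrable_const _)]
  have h1 := norm_integral_le_of_norm_le_const (μ := nu Γ η hη) (C := K₀ * (M * η))
    (f := fun z => f (F D δ L (x + fs (D.supp (big (δ / 2) x)) fun γ => clip η (z γ))) -
      f (F D δ L x))
    (ae_of_all _ fun z => by
      rw [Real.norm_eq_abs]
      refine (hh _ _).trans ?_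
      rw [add_sub_cancel_left]
      gcongr
      exact (hp _).trans (by gcongr; exact norm_fs_clip_le hη _ z))
  rw [Real.norm_eq_abs] at h1
  simpa using h1

theorem smo_contDiff (hM : 0 < M) (hp : ∀ x, p x ≤ M * ‖x‖) (hK : 0 ≤ K₀) (hδ : 0 < δ)
    (hL : 0 < L) (hηδ : η ≤ δ / 2)
    (hh : ∀ x y, |f (F D δ L x) - f (F D δ L y)| ≤ K₀ * p (x - y)) :
    ContDiff ℝ ∞ (smo D δ L η hη f) := by
  have hcont : Continuous fun x => f (F D δ L x) := continuous_of_lip hM hp hK hh
  rw [contDiff_iff_contDiffAt]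
  intro x0
  set S : Finset Γ := D.supp (big (δ / 4) x0) with hS
  set g : (S → ℝ) → ℝ := fun a => f (F D δ L (ext S a)) with hg
  have hgc : Continuous g := hcont.comp (continuous_ext S)
  have hsm := contDiff_average hη hgc
  have hcomp : ContDiff ℝ ∞ fun y : C₀(Γ, ℝ) =>
      ∫ z, g (restr S y + z) ∂(Measure.pi fun _ : S => law η hη) :=
    hsm.comp (restr S).contDiff
  refine (hcomp.contDiffAt (x := x0)).congr_of_eventuallyEq ?_
  filter_upwards [Metric.closedBall_mem_nhds x0 (show 0 < δ / 4 by positivity)] with y hy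
  have hy' : ‖y - x0‖ ≤ δ / 4 := by rwa [mem_closedBall_iff_norm] at hy
  have hSy : D.supp (big (δ / 2) y) ⊆ S := by
    refine D.mono_supp _ _ ?_
    have := big_close (t := δ / 4) (by positivity) hy'
    have e : δ / 4 + δ / 4 = δ / 2 := by ring
    rwa [e] at this
  rw [smo_eq hδ hL hηδ y hSy]
  have h1 : ∀ z : Γ → ℝ, f (F D δ L (y + fs S fun γ => clip η (z γ))) =
      (fun a : S → ℝ => g (restr S y + fun γ => clip η (a γ))) (S.restrict z) := by
    intro z
    have h2 : ‖(y + fs S fun γ => clip η (z γ)) - y‖ ≤ δ / 2 := by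
      rw [add_sub_cancel_left]
      exact (norm_fs_clip_le hη S z).trans hηδ
    rw [← F_dep (D := D) hδ hL h2 hSy]
    simp only [hg]
    congr 2
    rw [fs_eq_ext]
    congr 1
    funext γ
    simp only [Pi.add_apply, ZeroAtInftyContinuousMap.add_apply, restr_apply]
    rw [fs_mem γ.2]
    rfl
  simp only [h1]
  have hmeas : Measurable fun a : S → ℝ => g (restr S y + fun γ => clip η (a γ)) := by
    refine (hgc.comp (continuous_const.add ?_)).measurable
    exact continuous_pi fun γ => (continuous_clip η).comp (continuous_apply γ)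
  have hmap : ∫ z, (fun a : S → ℝ => g (restr S y + fun γ => clip η (a γ)))
      ((S.restrict : (Γ → ℝ) → (S → ℝ)) z) ∂(nu Γ η hη) =
      ∫ a, (fun a : S → ℝ => g (restr S y + fun γ => clip η (a γ))) a
        ∂(Measure.map (S.restrict : (Γ → ℝ) → (S → ℝ)) (nu Γ η hη)) :=
    (integral_map (Finset.measurable_restrict (X := fun _ : Γ => ℝ) S).aemeasurable
      hmeas.aestronglyMeasurable).symm
  refine hmap.trans ?_
  rw [nu, Measure.infinitePi_map_restrict]
  refine integral_congr_ae ?_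
  filter_upwards [pi_law_ae hη (ι := S)] with a ha
  have : (fun γ => clip η (a γ)) = a := funext fun γ => clip_of_abs_le (ha γ)
  rw [this]

end

/-- **Main theorem for seminorms on `c_0(Γ)`.** -/
theorem main_seminorm (hM : 0 < M) (hp : ∀ x, p x ≤ M * ‖x‖) (hq : ∀ x, ‖x‖ ≤ M * p x)
    {C₀ : ℝ} (hC : 1 < C₀) {f : C₀(Γ, ℝ) → ℝ} {Λ : ℝ} (hΛ : 0 ≤ Λ)
    (hf : ∀ x y, |f x - f y| ≤ Λ * p (x - y)) {ϵ : ℝ} (hϵ : 0 < ϵ) :
    ∃ K : C₀(Γ, ℝ) → ℝ, ContDiff ℝ ∞ K ∧ (∀ x y, |K x - K y| ≤ C₀ * Λ * p (x - y)) ∧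
      ∀ x, |f x - K x| < ϵ := by
  set ε : ℝ := (C₀ - 1) / 2 with hε
  have hε0 : 0 < ε := by rw [hε]; linarith
  set L : ℝ := 3 * M ^ 2 / ε with hLd
  have hL : 0 < L := by positivity
  obtain ⟨D⟩ := lemC hM hp hq hε0
  set R : ℝ := Λ * M * Real.exp L + C₀ * Λ * M + 1 with hR
  have hC0 : 0 < C₀ := by linarith
  have hR0 : 0 < R := by positivity
  set δ : ℝ := ϵ / (2 * R) with hδd
  have hδ : 0 < δ := by positivity
  set η : ℝ := δ / 2 with hηd
  have hη : 0 < η := by positivity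
  have hloc : ∀ x y : C₀(Γ, ℝ), ‖x - y‖ ≤ δ / 2 →
      |f (F D δ L x) - f (F D δ L y)| ≤ C₀ * Λ * p (x - y) := by
    intro x y hxy
    have h1 := p_F_sub_le (D := D) hM hp hq hδ hL hxy
    have h2 : 3 * M ^ 2 / L = ε := by
      rw [hLd]; field_simp
    rw [h2] at h1
    calc |f (F D δ L x) - f (F D δ L y)| ≤ Λ * p (F D δ L x - F D δ L y) := hf _ _
      _ ≤ Λ * ((1 + ε + ε) * p (x - y)) := by gcongr
      _ = C₀ * Λ * p (x - y) := by rw [hε]; ring
  have hh : ∀ x y : C₀(Γ, ℝ), |f (F D δ L x) - f (F D δ L y)| ≤ C₀ * Λ * p (x - y) :=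
    fun x y => global_lip (h := fun x => f (F D δ L x)) (by positivity) hloc x y
  have hK : 0 ≤ C₀ * Λ := by positivity
  refine ⟨smo D δ L η hη f, smo_contDiff hM hp hK hδ hL le_rfl hh,
    smo_lip hM hp hK hδ hL le_rfl hh, fun x => ?_⟩
  have h1 := smo_close (η := η) (hη := hη) hM hp hK hh x
  have h2 : |f (F D δ L x) - f x| ≤ Λ * (M * (δ * Real.exp L)) := by
    refine (hf _ _).trans ?_
    gcongr
    exact (hp _).trans (by gcongr; exact norm_F_sub_le hδ hL x)
  have h3 : |f x - smo D δ L η hη f x| ≤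
      |smo D δ L η hη f x - f (F D δ L x)| + |f (F D δ L x) - f x| := by
    rw [abs_sub_comm (f x)]
    exact abs_sub_le _ _ _
  have h4 : δ * R = ϵ / 2 := by rw [hδd]; field_simp
  have h5 : C₀ * Λ * (M * η) ≤ C₀ * Λ * M * δ := by
    have : η ≤ δ := by rw [hηd]; linarith
    calc C₀ * Λ * (M * η) ≤ C₀ * Λ * (M * δ) := by gcongr
      _ = _ := by ring
  have h6 : δ * R = Λ * (M * (δ * Real.exp L)) + C₀ * Λ * M * δ + δ := by rw [hR]; ring
  linarith

end Pool.Agent.Helper94.CZ
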